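import Pool.Agent.Lib.MP_5c318e_ag.S.CV
import Pool.Agent.Lib.MP_5c318e_ag.S.CRel
import Pool.Agent.Lib.MP_9ff3e7_ag.F.LeviB

/-! Transfer from a chart to a chart above it, with two index types. -/

set_option autoImplicit false

namespace Pool.Agent.Lib.MP_5c318e_ag

open MeasureTheory Set Filter Topology
open scoped ContDiff
open Pool.Agent.Lib.MP_9ff3e7_ag

noncomputable section

variable {δ K : Type} [Fintype δ] [DecidableEq δ] [Field K] [Algebra ℂ K]
variable {ι : Type} [Fintype ι] [DecidableEq ι]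

/-- renaming the coordinates of a Riemann domain -/
def RD.rei {X : Type} [TopologicalSpace X] [MeasurableSpace X] (D : RD δ X) (e : ι ≃ δ) :
    RD ι X where
  π p i := D.π p (e i)
  loc := (Homeomorph.piCongrLeft (Y := fun _ => ℂ) e).symm.isLocalHomeomorph.comp D.loc
  μ := D.μ
  vol A hA hi := by
    rw [D.vol A hA fun p hp q hq h => hi hp hq (funext fun i => congrFun h (e i)),
      ← (volume_measurePreserving_piCongrLeft (fun _ => ℂ) e).measure_preimage_equiv (D.π '' A)]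
    congr 1
    rw [← MeasurableEquiv.image_symm, image_image]
    rfl

section tra

variable {B : Cht δ K} {S : Cht ι K} (inc : B.O →ₐ[ℂ] S.O) (hinc : ∀ a, (inc a : K) = a)

theorem Cht.res_hol' (q : Pt S.O) : DifferentiableAt ℂ
    (fun z => B.D.π ((S.D.sec q z).res inc)) (S.D.π q) :=
  differentiableAt_pi.2 fun i => by
    simp only [B.π_eq, Pt.res_apply]
    exact S.hol _ q

theorem Cht.res_germ' (q : Pt S.O) : ∀ᶠ z in 𝓝 (S.D.π q),
    (S.D.sec q z).res inc = B.D.sec (q.res inc) (B.D.π ((S.D.sec q z).res inc)) :=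
  ((((Pt.continuous_res inc).tendsto q).comp (S.D.tendsto_sec q)).eventually
    ((B.D.ch (q.res inc)).open_source.mem_nhds (B.D.mem_src _))).mono fun _ h => (RD.sec_π h).symm

theorem Cht.res_an (q : Pt S.O) : AnalyticAt ℂ
    (fun z => B.D.π ((S.D.sec q z).res inc)) (S.D.π q) :=
  RArea.ana S.D (g := fun q => B.D.π (q.res inc)) (.of_forall (Cht.res_hol' inc))

include hinc

/-- the map `S → B` in coordinates -/
theorem Cht.res_hol (q : Pt S.O) : DifferentiableAt ℂ
    (fun z => B.D.π ((S.D.sec q z).res inc)) (S.D.π q) := (fun _ => Cht.res_hol' inc q) hinc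

theorem Cht.res_germ (q : Pt S.O) : ∀ᶠ z in 𝓝 (S.D.π q),
    (S.D.sec q z).res inc = B.D.sec (q.res inc) (B.D.π ((S.D.sec q z).res inc)) :=
  (fun _ => Cht.res_germ' inc q) hinc

theorem Cht.res_ev (q : Pt S.O) {φ : K} (h : (q.res inc).Reg φ) :
    q.Reg φ ∧ q.ev φ = (q.res inc).ev φ := by
  obtain ⟨a, b, hb, e⟩ := h
  have e' : φ * (inc b : S.O) = (inc a : S.O) := by rw [hinc, hinc, e]
  exact ⟨⟨inc a, inc b, hb, e'⟩, by rw [q.ev_eq hb e', (q.res inc).ev_eq hb e]; rfl⟩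

theorem Cht.res_levi {φ : Pt B.O → ℝ} (h : B.D.Sm φ) : S.D.Sm (fun q => φ (q.res inc)) ∧ ∀ q ξ,
    S.D.levi (fun q => φ (q.res inc)) q ξ =
      B.D.levi φ (q.res inc) (S.D.fd (fun q => B.D.π (q.res inc)) q ξ) := by
  have e : ∀ q : Pt S.O, (fun z => φ ((S.D.sec q z).res inc)) =ᶠ[𝓝 (S.D.π q)]
      fun z => φ (B.D.sec (q.res inc) (B.D.π ((S.D.sec q z).res inc))) := fun q =>
    (Cht.res_germ inc hinc q).mono fun _ h => congrArg φ h
  refine ⟨fun q => ContDiffAt.congr_of_eventuallyEq ?_ (e q), fun q ξ => ?_⟩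
  · exact ContDiffAt.comp (g := fun y => φ (B.D.sec (q.res inc) y)) _
      (by rw [S.D.sec_self]; exact h _)
      (((Cht.res_an inc q).contDiffAt (n := ∞)).restrict_scalars ℝ)
  · rw [RD.levi, F.levi_congr (e q), F.levi_comp_holo (φ := fun y => φ (B.D.sec (q.res inc) y))
      (by rw [S.D.sec_self]; exact h.two _) (Cht.res_an inc q), S.D.sec_self]
    rfl

theorem Cht.res_ana {φ : Pt B.O → ℝ}
    (h : ∀ p, AnalyticAt ℝ (fun y => φ (B.D.sec p y)) (B.D.π p)) (q : Pt S.O) :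
    AnalyticAt ℝ (fun y => φ ((S.D.sec q y).res inc)) (S.D.π q) :=
  (AnalyticAt.comp (g := fun y => φ (B.D.sec (q.res inc) y)) (by rw [S.D.sec_self]; exact h _)
    ((Cht.res_an inc q).restrictScalars (𝕜 := ℝ))).congr
    ((Cht.res_germ inc hinc q).mono fun _ h => (congrArg φ h).symm)

theorem Cht.res_gen {Q : Pt B.O → Prop} (h : ∀ᶠ p in B.D.gen, Q p) :
    ∀ᶠ q in S.D.gen, Q (q.res inc) := by
  obtain ⟨g, g0, hg⟩ := h
  have h1 : inc (MvPolynomial.aeval B.z g) ≠ 0 := fun e => g0 <| by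
    have e1 := congrArg (fun a : S.O => (a : K)) e
    simp only [hinc, ZeroMemClass.coe_zero] at e1
    refine algebraicIndependent_iff.1 B.basis.1 g ?_
    rw [← e1]
    exact (MvPolynomial.comp_aeval_apply (f := B.z) B.O.val g).symm
  refine (S.gen_ne h1).mono fun q hq => hg _ ?_
  rwa [← B.apply_aeval]

/-- `S` is the open set `h ≠ 0` of `B` -/
theorem Cht.res_loc {h : B.O} (h0 : h ≠ 0) (hS : S.O = locAway B.O h) : ∃ J : S.O,
    (∀ q : Pt S.O, q J ≠ 0 ∧ Function.Bijective (S.D.fd (fun q => B.D.π (q.res inc)) q)) ∧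
    (∀ p : Pt B.O, p h ≠ 0 → ∃ q : Pt S.O, q.res inc = p) ∧
    (∀ G : Pt B.O → ENNReal, Measurable G → ∫⁻ p, G p ∂B.D.μ =
      ∫⁻ q, ENNReal.ofReal (‖q J‖ ^ 2) * G (q.res inc) ∂S.D.μ) ∧
    ∀ F : Pt S.O → ℂ, S.D.Hol F → ∃ u : Pt B.O → ℂ, Measurable u ∧ (∀ q, u (q.res inc) = F q) ∧
      ∀ p : Pt B.O, p h ≠ 0 → DifferentiableAt ℂ (fun z => u (B.D.sec p z)) (B.D.π p) := by
  classical
  obtain ⟨e⟩ : Nonempty (ι ≃ δ) := Cardinal.eq.1 (S.basis.cardinalMk_eq B.basis)
  have hle : B.O ≤ S.O := hS ▸ le_locAway _ h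
  obtain ⟨τ, t1, t2⟩ := Tr.of_inLoc (A := B.O) (A' := S.O) (h := h) (h' := 1) h0 one_ne_zero
    (fun φ hφ => by rw [hS] at hφ; exact hφ) (fun φ hφ => ⟨0, ⟨φ, hle hφ⟩, by simp⟩) (by simp)
    (le_locAway _ _ (hS ▸ inv_mem_locAway h))
  have i1 : ∀ q : Pt S.O, τ.inv q = q.res inc := fun q => Pt.ext fun a => by
    rw [← Pt.ev_coe, ((τ.same' q (by simp [t2])).1 _).2, ← hinc, Pt.ev_coe, Pt.res_apply]
  have s1 : ∀ q : Pt S.O, (q.res inc).Same q ∧ q.res inc h ≠ 0 ∧ τ.map (q.res inc) = q := fun q => by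
    have := τ.same' q (by simp [t2])
    rwa [i1, t1] at this
  have s2 : ∀ p : Pt B.O, p h ≠ 0 → (τ.map p).res inc = p := fun p hp => by
    rw [← i1, (τ.same p (t1 ▸ hp)).2.2]
  let f : ι → K := fun i => B.z (e i)
  have fm : ∀ i, f i ∈ S.O := fun i => hle (B.z (e i)).2
  have Jm : Jac S.der f ∈ S.O := by
    rw [Jac, Matrix.det_apply']
    exact sum_mem fun σ _ => mul_mem (intCast_mem _ _) (prod_mem fun i _ => S.der_mem _ _ (fm _))
  have key := fun q : Pt S.O => S.cvEv.jac (p := q) (f := f)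
    (g := fun q => (B.D.rei e).π (q.res inc)) (fun i => q.reg_of_mem (fm i)) (.of_forall fun q i => by
      change B.D.π _ _ = q.ev (B.z (e i))
      rw [B.π_eq, ← hinc, Pt.ev_coe, Pt.res_apply])
  have J0 : ∀ q : Pt S.O, q.ev (Jac S.der f) ≠ 0 := fun q =>
    CV.jac_ne (d' := fun i => B.der (e i)) S.dual
      ⟨B.basis.comp_equiv e, fun i j => (B.der_z _ _).trans (by simp)⟩
      (q.reg_of_mem Jm) (q.ev_det fun a b => ((s1 q).1 _).1.1
        (B.cvEv.reg (((s1 q).1 _).1.2 (q.reg_coe _)) _)).1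
  refine ⟨⟨_, Jm⟩, fun q => ⟨by rw [← q.ev_of_mem]; exact J0 q, ?_⟩, fun p hp => ⟨_, s2 p hp⟩,
    fun G hG => ?_, fun F hF => ?_⟩
  · let L := ContinuousLinearEquiv.piCongrLeft ℂ (fun _ => ℂ) e
    have h1 : S.D.fd (fun q => B.D.π (q.res inc)) q =
        (L : _ →L[ℂ] _).comp (S.D.fd (fun q => (B.D.rei e).π (q.res inc)) q) := by
      rw [RD.fd, RD.fd, ← L.comp_fderiv]
      congr 1
      funext z
      exact (L.apply_symm_apply _).symm
    have h2 : (S.D.fd (fun q => (B.D.rei e).π (q.res inc)) q).det ≠ 0 :=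
      (key q).2.trans_ne (J0 q)
    rw [h1]
    exact L.bijective.comp (ContinuousLinearMap.toContinuousLinearEquivOfDetNeZero _ h2).bijective
  · have := CV.cv_abs S.D (B.D.rei e) isOpen_univ (Pt.continuous_res inc).continuousOn
      (fun q _ => (key q).1) (fun q _ => (key q).2.trans_ne (J0 q))
      (fun p _ q _ h => by rw [← (s1 p).2.2, h, (s1 q).2.2])
      ((B.D.ae_of_gen (B.gen_ne h0)).mono fun p hp => ⟨_, trivial, s2 p hp⟩) hG
    rw [Measure.restrict_univ] at this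
    refine this.trans (lintegral_congr fun q => ?_)
    rw [(key q).2, ← q.ev_of_mem]
    rfl
  · have op : IsOpen {p : Pt B.O | p h ≠ 0} := t1 ▸ τ.isOpen
    refine ⟨{p : Pt B.O | p h ≠ 0}.piecewise (fun p => F (τ.map p)) fun _ => 0,
      (hF.cont.comp_continuousOn (t1 ▸ τ.continuousOn)).measurable_piecewise continuousOn_const
        op.measurableSet, fun q => ?_, fun p hp => ?_⟩
    · rw [piecewise_eq_of_mem _ _ _ (s1 q).2.1, (s1 q).2.2]
    · have hp' : p τ.h ≠ 0 := t1 ▸ hp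
      have ev := (B.D.tendsto_sec p).eventually (op.mem_nhds hp)
      have d1 : DifferentiableAt ℂ (fun z => S.D.π (τ.map (B.D.sec p z))) (B.D.π p) :=
        differentiableAt_pi.2 fun i => (B.cvEv.diff (τ.map_apply hp' (S.z i)).1).1.congr_of_eventuallyEq
          (ev.mono fun z hz => by
            beta_reduce
            rw [S.π_eq, (τ.map_apply (t1 ▸ hz) _).2]
            rfl)
      refine (DifferentiableAt.comp (g := fun y => F (S.D.sec (τ.map p) y)) _
        (by rw [B.D.sec_self]; exact hF _) d1).congr_of_eventuallyEq ?_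
      filter_upwards [ev, ((τ.continuousAt hp').tendsto.comp (B.D.tendsto_sec p)).eventually
        ((S.D.ch (τ.map p)).open_source.mem_nhds (S.D.mem_src _))] with z a b
      rw [piecewise_eq_of_mem _ _ _ a]
      exact congrArg F (RD.sec_π b).symm

end tra

end

end Pool.Agent.Lib.MP_5c318e_ag
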