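import Pool.Agent.Lib.MP_5c318e_ag.Z.LDefs

/-! The spaces of square integrable sections used for the key section. -/

set_option autoImplicit false

namespace Pool.Agent.Lib.MP_5c318e_ag

open MeasureTheory Set Filter Topology

variable {δ K : Type} [Fintype δ] [DecidableEq δ] [Field K] [Algebra ℂ K]
  {B : FCht δ K} {η : K} {k0 : ℕ} {Dn : Pt B.O → ℝ} {ν : ℕ} {Γ : Type} [Group Γ]
  {c : G.Coc (Pt B.O) Γ} {F : Prof B η k0 Dn ν c}

/-- `∑ |g_i|²` -/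
noncomputable def Desc.gs (R : Desc F) (p : Pt B.O) : ℝ :=
  ‖p.ev R.g0‖ ^ 2 + ∑ i, ‖p.ev (R.g0 * R.S.z (Sum.inl i))‖ ^ 2

/-- the finiteness condition of the space `U_n` -/
def Desc.L2 (R : Desc F) (k n : ℕ) (g : K) : Prop := g ∈ B.O ∧
  ∫⁻ p, ENNReal.ofReal (‖p.ev g‖ ^ 2 * (Dn p ^ (R.a0 * n) / R.gs p ^ k * B.dn η k0 p)) ∂B.D.μ < ⊤

end Pool.Agent.Lib.MP_5c318e_ag
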