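import Pool.Agent.Lib.MP_5c318e_ag.Ky.KDefs
import Pool.Agent.Lib.MP_5c318e_ag.Z.Bdy

/-! Square integrable sections have bounded pole orders. -/

set_option autoImplicit false

namespace Pool.Agent.Lib.MP_5c318e_ag

open MeasureTheory Set Filter Topology

section lob

variable {α : Type} {l : Filter α} {t f g : α → ℝ} {s s' : ℝ}

/-- `f` is bounded below by a multiple of `t ^ s` -/
def LoB (l : Filter α) (t f : α → ℝ) (s : ℝ) : Prop :=
  ∃ κ : ℝ, 0 < κ ∧ ∀ᶠ p in l, κ * t p ^ s ≤ f p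

theorem LoB.mul (ht : ∀ᶠ p in l, 0 < t p) (h : LoB l t f s) (h' : LoB l t g s') :
    LoB l t (fun p => f p * g p) (s + s') := by
  obtain ⟨a, ha, h⟩ := h
  obtain ⟨b, hb, h'⟩ := h'
  refine ⟨a * b, by positivity, ?_⟩
  filter_upwards [ht, h, h'] with p h0 h1 h2
  rw [Real.rpow_add h0, mul_mul_mul_comm]
  exact mul_le_mul h1 h2 (by positivity) (le_trans (by positivity) h1)

theorem LoB.rpow (ht : ∀ᶠ p in l, 0 < t p) (h : LoB l t f s) {r : ℝ} (hr : 0 ≤ r) :
    LoB l t (fun p => f p ^ r) (s * r) := by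
  obtain ⟨a, ha, h⟩ := h
  refine ⟨a ^ r, by positivity, ?_⟩
  filter_upwards [ht, h] with p h0 h1
  rw [Real.rpow_mul h0.le, ← Real.mul_rpow ha.le (by positivity)]
  exact Real.rpow_le_rpow (by positivity) h1 hr

theorem LoB.pow (ht : ∀ᶠ p in l, 0 < t p) (h : LoB l t f s) (n : ℕ) :
    LoB l t (fun p => f p ^ n) (s * n) := by
  simpa using h.rpow ht n.cast_nonneg

theorem LoB.inv (ht : ∀ᶠ p in l, 0 < t p) {a : ℝ} (h : ∀ᶠ p in l, 0 < f p ∧ f p ≤ a * t p ^ s) :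
    LoB l t (fun p => (f p)⁻¹) (-s) := by
  refine ⟨(|a| + 1)⁻¹, by positivity, ?_⟩
  filter_upwards [ht, h] with p h0 h1
  rw [Real.rpow_neg h0.le, ← mul_inv]
  exact inv_anti₀ h1.1 (h1.2.trans (mul_le_mul_of_nonneg_right
    (by linarith [le_abs_self a]) (by positivity)))

end lob

variable {δ K : Type} [Fintype δ] [DecidableEq δ] [Field K] [Algebra ℂ K]
  {B : FCht δ K} {η : K} {k0 : ℕ} {Dn : Pt B.O → ℝ} {ν : ℕ} {Γ : Type} [Group Γ]
  {c : G.Coc (Pt B.O) Γ} {F : Prof B η k0 Dn ν c}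

theorem Desc.g0_ne (R : Desc F) : R.g0 ≠ 0 := fun e => by
  obtain ⟨p, -⟩ := Pt.exists_zero (O := R.S.O) (I := ⊥) bot_ne_top
  exact R.unit p (by rw [e, Pt.ev_zero])

/-- the order inequality -/
theorem Desc.ord_lt (hB : Base B η k0) (R : Desc F) {k n : ℕ} {g : K} (h : R.L2 k n g) (P : PD K)
    {o m : ℤ} (ho : P.1.valuation g = P.1.valuation (F.bd P).z ^ o) (h0 : (F.bd P).Ge R.g0 m)
    (hi : ∀ i, (F.bd P).Ge (R.g0 * R.S.z (Sum.inl i)) m) :
    (-1 : ℝ) < o + F.al P * (R.a0 * n) - k * m + F.e P / k0 := by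
  have hk : (0 : ℝ) < k0 := by exact_mod_cast hB.pos
  have hz : P.1.valuation (F.bd P).z ≠ 0 := (map_ne_zero _).2 (F.bd P).cen.ad.ne
  have hJ : (F.bd P).J ≠ 0 := fun e => by
    have := F.he P
    rw [e, zero_pow hB.pos.ne', div_zero, map_zero] at this
    exact pow_ne_zero _ hz this.symm
  obtain ⟨kJ, hkJ⟩ := (F.bd P).exists_ord hJ
  obtain ⟨o0, ho0⟩ := (F.bd P).exists_ord R.g0_ne
  have hη : P.1.valuation η = P.1.valuation (F.bd P).z ^ ((F.e P : ℤ) + kJ * k0) := by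
    rw [zpow_add₀ hz, zpow_natCast, ← F.he P, zpow_mul, ← hkJ, zpow_natCast, ← map_pow, ← map_mul,
      div_mul_cancel₀ _ (pow_ne_zero _ hJ)]
  have key := (F.bd P).l1 h.2 hkJ
    (s := o + F.al P * (R.a0 * n) - k * m + F.e P / k0 + kJ) (Eventually.frequently (by
      filter_upwards [(F.bd P).gen_z, (F.bd P).asym ho, (F.bd P).asym ho0, (F.bd P).asym hη,
        F.lo P, h0.bound, eventually_all.2 fun i => (hi i).bound]
        with c0 hc ⟨a1, _, p1, _, h1⟩ ⟨a2, _, p2, _, h2⟩ ⟨a3, _, p3, _, h3⟩ ⟨a4, p4, h4⟩ ⟨a5, _, h5⟩ h6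
      choose a6 _ h6 using h6
      have ht : ∀ᶠ p in (F.bd P).near c0, 0 < ‖p.ev (F.bd P).z‖ :=
        (((F.bd P).tendsto_z hc).eventually self_mem_nhdsWithin).mono fun p hp =>
          norm_pos_iff.2 hp
      have l1 : LoB ((F.bd P).near c0) (fun p => ‖p.ev (F.bd P).z‖) (fun p => ‖p.ev g‖) o :=
        ⟨a1, p1, h1.mono fun p hp => by simpa using hp.2.1⟩
      have l3 : LoB ((F.bd P).near c0) (fun p => ‖p.ev (F.bd P).z‖) (fun p => ‖p.ev η‖)
          ((F.e P : ℤ) + kJ * k0 : ℤ) :=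
        ⟨a3, p3, h3.mono fun p hp => by simpa only [Real.rpow_intCast] using hp.2.1⟩
      have l4 : LoB ((F.bd P).near c0) (fun p => ‖p.ev (F.bd P).z‖) Dn (2 * F.al P : ℤ) :=
        ⟨a4, p4, h4.mono fun p hp => by simpa only [Real.rpow_intCast] using hp⟩
      have l5 : LoB ((F.bd P).near c0) (fun p => ‖p.ev (F.bd P).z‖) (fun p => (R.gs p)⁻¹)
          (-(m * 2)) := LoB.inv ht (a := a5 ^ 2 + ∑ i, a6 i ^ 2) (by
        filter_upwards [ht, h2, h5, eventually_all.2 h6] with p q0 q2 q5 q6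
        have q3 : 0 < ‖p.ev R.g0‖ := lt_of_lt_of_le (by positivity) q2.2.1
        refine ⟨by rw [Desc.gs]; positivity, ?_⟩
        rw [Desc.gs, Real.rpow_mul q0.le, Real.rpow_intCast, Real.rpow_two, add_mul,
          Finset.sum_mul, ← mul_pow]
        exact add_le_add (pow_le_pow_left₀ (norm_nonneg _) q5.2 2) (Finset.sum_le_sum fun i _ => by
          rw [← mul_pow]; exact pow_le_pow_left₀ (norm_nonneg _) (q6 i).2 2))
      obtain ⟨a, ha, h7⟩ := (l1.pow ht 2).mul ht (((l4.pow ht (R.a0 * n)).mul ht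
        (l5.pow ht k)).mul ht (l3.rpow ht (r := 2 / k0) (by positivity)))
      refine ⟨a, ha, h7.mono fun p hp => ENNReal.ofReal_le_ofReal ?_⟩
      convert hp using 3
      · push_cast
        field_simp
        ring
      · rw [div_eq_mul_inv, inv_pow]
      · rfl))
  linarith

/-- file Ky/Ord -/
theorem Desc.ord (hB : Base B η k0) (hL : Lin B Dn ν) (R : Desc F) {k n : ℕ} {g : K}
    (h : R.L2 k n g) : F.Sec (k * R.A + 1) g (R.a0 * (n + k)) := by
  by_cases g0 : g = 0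
  · exact ⟨h.1, fun P _ _ => by simp [Prof.Ord, Bdy.Ge, g0], fun P => by
      simp [Prof.Ord, Bdy.Ge, g0]⟩
  have hk : (1 : ℝ) ≤ k0 := by exact_mod_cast hB.pos
  refine ⟨h.1, fun P hP he => ?_, fun P => ?_⟩
  · obtain ⟨o, ho⟩ := (F.bd P).exists_ord g0
    have := R.ord_lt hB h P ho (R.sec0.good P hP he) fun i => (R.sec i).good P hP he
    rw [he, Nat.cast_zero, zero_div] at this
    refine ((F.bd P).ge_iff ho).2 (Int.lt_add_one_iff.1 ?_)
    rify
    push_cast at this ⊢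
    linarith
  · obtain ⟨o, ho⟩ := (F.bd P).exists_ord g0
    have := R.ord_lt hB h P ho (R.sec0.all P) fun i => (R.sec i).all P
    have e : (F.e P : ℝ) / k0 ≤ F.e P := div_le_self (by positivity) hk
    refine ((F.bd P).ge_iff ho).2 (Int.lt_add_one_iff.1 ?_)
    rify
    push_cast at this ⊢
    linarith

end Pool.Agent.Lib.MP_5c318e_ag
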