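import Pool.Agent.Lib.MP_5c318e_ag.Ky.Low
import Pool.Agent.Lib.MP_5c318e_ag.Ky.Ord

/-! The key section: counting sections against the boundary conditions. -/

set_option autoImplicit false

namespace Pool.Agent.Lib.MP_5c318e_ag

open MeasureTheory Set Filter Topology Module

theorem Ky.step {V : Type*} [AddCommGroup V] [Module ℂ V] (U W : Submodule ℂ V)
    [FiniteDimensional ℂ U] {a : ℕ}
    (h : ∀ U' : Submodule ℂ V, U' ≤ U → (∀ g ∈ U', g ∈ W → g = 0) → finrank ℂ U' ≤ a) :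
    finrank ℂ U ≤ finrank ℂ (U ⊓ W : Submodule ℂ V) + a := by
  obtain ⟨C, hC⟩ := (U ⊓ W).exists_isCompl
  have e : U = (U ⊓ W) ⊔ (C ⊓ U) := by
    rw [← sup_inf_assoc_of_le C inf_le_left, hC.sup_eq_top, top_inf_eq]
  have : FiniteDimensional ℂ (U ⊓ W : Submodule ℂ V) :=
    Submodule.finiteDimensional_of_le inf_le_left
  have : FiniteDimensional ℂ (C ⊓ U : Submodule ℂ V) :=
    Submodule.finiteDimensional_of_le inf_le_right
  have h1 := h (C ⊓ U) inf_le_right fun g hg hW =>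
    Submodule.disjoint_def.1 hC.disjoint g ⟨hg.2, hW⟩ hg.1
  have h2 := Submodule.finrank_add_le_finrank_add_finrank (U ⊓ W) (C ⊓ U)
  rw [← e] at h2
  omega

theorem Ky.small {κ : ℝ} (κ0 : 0 < κ) {A ν : ℕ} (h : A = 0 ∨ ν ≠ 0) (a k : ℕ) :
    ∀ᶠ n : ℕ in atTop, ((A * (a * (n + k) + 1) ^ (ν - 1) : ℕ) : ℝ) < κ * (n : ℝ) ^ ν := by
  rcases h with rfl | h
  · filter_upwards [eventually_gt_atTop 0] with n hn
    simp only [zero_mul, Nat.cast_zero]
    positivity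
  obtain ⟨μ, rfl⟩ := Nat.exists_eq_succ_of_ne_zero h
  have ht : Tendsto (fun n : ℕ => κ * (n : ℝ)) atTop atTop :=
    tendsto_natCast_atTop_atTop.const_mul_atTop κ0
  filter_upwards [eventually_gt_atTop 0,
    ht.eventually_gt_atTop ((A * (a * (1 + k) + 1) ^ μ : ℕ) : ℝ)] with n hn h1
  have h2 : a * (n + k) + 1 ≤ (a * (1 + k) + 1) * n := by
    have : k ≤ k * n := Nat.le_mul_of_pos_right k hn
    nlinarith [Nat.mul_le_mul_left a this]
  have h3 : A * (a * (n + k) + 1) ^ μ ≤ A * (a * (1 + k) + 1) ^ μ * n ^ μ := by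
    rw [mul_assoc, ← mul_pow]
    exact Nat.mul_le_mul_left A (Nat.pow_le_pow_left h2 μ)
  have n0 : (0 : ℝ) < (n : ℝ) ^ μ := by positivity
  calc ((A * (a * (n + k) + 1) ^ (μ.succ - 1) : ℕ) : ℝ)
      ≤ ((A * (a * (1 + k) + 1) ^ μ : ℕ) : ℝ) * (n : ℝ) ^ μ := by exact_mod_cast h3
    _ < κ * n * (n : ℝ) ^ μ := mul_lt_mul_of_pos_right h1 n0
    _ = _ := by rw [Nat.succ_eq_add_one, pow_succ]; ring

variable {δ K : Type} [Fintype δ] [DecidableEq δ] [Field K] [Algebra ℂ K]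
  {B : FCht δ K} {η : K} {k0 : ℕ} {Dn : Pt B.O → ℝ} {ν : ℕ} {Γ : Type} [Group Γ]
  {c : G.Coc (Pt B.O) Γ} {F : Prof B η k0 Dn ν c}

/-- regular and square integrable with a moderate weight -/
def Ky.Fi (B : FCht δ K) (Dn : Pt B.O → ℝ) (N T : ℕ) (g : K) : Prop := g ∈ B.O ∧
  ∫⁻ p, ENNReal.ofReal (‖p.ev g‖ ^ 2 * Dn p ^ T / B.sz p ^ N) ∂B.D.μ < ⊤

theorem Prof.raise (F : Prof B η k0 Dn ν c) {P : PD K} (hP : ¬ F.Good P) (N i : ℕ) :
    ∃ A : ℕ, ∀ T : ℕ, 0 < T → ∀ U : Submodule ℂ K, FiniteDimensional ℂ U →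
      (∀ g ∈ U, Ky.Fi B Dn N T g ∧ F.Ord P g T (1 - i)) → ∃ U' : Submodule ℂ K, U' ≤ U ∧
        finrank ℂ U ≤ finrank ℂ U' + A * (T + 1) ^ (ν - 1) ∧ ∀ g ∈ U', F.Ord P g T 1 := by
  induction i with
  | zero => exact ⟨0, fun T _ U _ h => ⟨U, le_rfl, by simp, fun g hg => by simpa using (h g hg).2⟩⟩
  | succ i ih =>
    obtain ⟨A, hA⟩ := ih
    obtain ⟨A', hA'⟩ := (F.up P hP).2 N (-i)
    refine ⟨A + A', fun T hT U _ h => ?_⟩
    let W := (F.bd P).geSub (-i + 1 - F.al P * T)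
    have h1 := Ky.step U W fun U' hU h0 => (hA' T hT U' (fun g hg => ⟨(h g (hU hg)).1.1, by
      have := (h g (hU hg)).2
      rwa [Prof.Ord, show (1 : ℤ) - (i + 1 : ℕ) = -i by push_cast; ring] at this,
      (h g (hU hg)).1.2⟩) h0).2
    obtain ⟨U', h2, h3, h4⟩ := hA T hT (U ⊓ W) (Submodule.finiteDimensional_of_le inf_le_left)
      fun g hg => ⟨(h g hg.1).1, by
        rw [Prof.Ord, show (1 : ℤ) - i = -i + 1 by ring]; exact hg.2⟩
    refine ⟨U', h2.trans inf_le_left, ?_, h4⟩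
    rw [add_mul]
    omega

theorem Prof.raise_all (F : Prof B η k0 Dn ν c) (VV : Finset (PD K)) (N L : ℕ) :
    ∃ A : ℕ, (A = 0 ∨ ν ≠ 0) ∧ ∀ T : ℕ, 0 < T → ∀ U : Submodule ℂ K, FiniteDimensional ℂ U →
      (∀ g ∈ U, Ky.Fi B Dn N T g ∧ F.Sec L g T) → ∃ U' : Submodule ℂ K, U' ≤ U ∧
        finrank ℂ U ≤ finrank ℂ U' + A * (T + 1) ^ (ν - 1) ∧
        ∀ g ∈ U', ∀ P ∈ VV, ¬ F.Good P → F.Ord P g T 1 := by
  classical
  induction VV using Finset.induction_on with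
  | empty => exact ⟨0, .inl rfl, fun T _ U _ _ => ⟨U, le_rfl, by simp, by simp⟩⟩
  | insert P VV _ ih =>
    obtain ⟨A, h0, hA⟩ := ih
    by_cases hP : F.Good P
    · refine ⟨A, h0, fun T hT U hU h => ?_⟩
      obtain ⟨U', h1, h2, h3⟩ := hA T hT U hU h
      refine ⟨U', h1, h2, fun g hg Q hQ hb => ?_⟩
      rcases Finset.mem_insert.1 hQ with rfl | hQ
      exacts [absurd hP hb, h3 g hg Q hQ hb]
    obtain ⟨A', hA'⟩ := F.raise hP N (L * (1 + F.e P) + 1)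
    refine ⟨A + A', .inr (F.up P hP).1, fun T hT U hU h => ?_⟩
    obtain ⟨U', h1, h2, h3⟩ := hA T hT U hU h
    obtain ⟨U'', h4, h5, h6⟩ := hA' T hT U' (Submodule.finiteDimensional_of_le h1) fun g hg =>
      ⟨(h g (h1 hg)).1, by
        have := (h g (h1 hg)).2.all P
        rwa [show (1 : ℤ) - (L * (1 + F.e P) + 1 : ℕ) = -(L * (1 + F.e P) : ℕ) by
          push_cast; ring]⟩
    refine ⟨U'', h4.trans h1, by rw [add_mul]; omega, fun g hg Q hQ hb => ?_⟩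
    rcases Finset.mem_insert.1 hQ with rfl | hQ
    exacts [h6 g hg, h3 g (h4 hg) Q hQ hb]

/-- the sections which are square integrable with a moderate weight -/
def Prof.sub (F : Prof B η k0 Dn ν c) (hD : Measurable Dn) (h0 : ∀ p, 0 < Dn p) (N L T : ℕ) :
    Submodule ℂ K where
  carrier := {g | Ky.Fi B Dn N T g ∧ F.Sec L g T}
  zero_mem' := ⟨⟨B.O.zero_mem, by simp⟩, B.O.zero_mem, fun P _ _ => (F.bd P).ge_zero _,
    fun P => (F.bd P).ge_zero _⟩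
  add_mem' := fun {g g'} ⟨h1, h2⟩ ⟨h3, h4⟩ => by
    refine ⟨⟨B.O.add_mem h1.1 h3.1, ?_⟩, B.O.add_mem h1.1 h3.1,
      fun P a b => (h2.good P a b).add (h4.good P a b), fun P => (h2.all P).add (h4.all P)⟩
    have m : Measurable fun p : Pt B.O =>
        2 * ENNReal.ofReal (‖p.ev g‖ ^ 2 * Dn p ^ T / B.sz p ^ N) :=
      (((((Pt.measurable_ev g).norm.pow_const 2).mul (hD.pow_const T)).div
        (B.continuous_sz.measurable.pow_const N)).ennreal_ofReal).const_mul 2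
    refine (lintegral_mono (g := fun p =>
      2 * ENNReal.ofReal (‖p.ev g‖ ^ 2 * Dn p ^ T / B.sz p ^ N) +
        2 * ENNReal.ofReal (‖p.ev g'‖ ^ 2 * Dn p ^ T / B.sz p ^ N)) fun p => ?_).trans_lt ?_
    · have a0 : 0 ≤ Dn p ^ T / B.sz p ^ N := div_nonneg (pow_pos (h0 p) T).le
        (pow_pos (B.sz_pos p) N).le
      have a1 : ‖p.ev (g + g')‖ ^ 2 ≤ 2 * ‖p.ev g‖ ^ 2 + 2 * ‖p.ev g'‖ ^ 2 := by
        rw [(p.ev_add (p.reg_of_mem h1.1) (p.reg_of_mem h3.1)).2]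
        have := pow_le_pow_left₀ (norm_nonneg _) (norm_add_le (p.ev g) (p.ev g')) 2
        nlinarith [sq_nonneg (‖p.ev g‖ - ‖p.ev g'‖)]
      simp only [mul_div_assoc]
      rw [← ENNReal.ofReal_ofNat 2, ← ENNReal.ofReal_mul (by norm_num),
        ← ENNReal.ofReal_mul (by norm_num), ← ENNReal.ofReal_add (by positivity) (by positivity)]
      exact ENNReal.ofReal_le_ofReal (by nlinarith [mul_le_mul_of_nonneg_right a1 a0])
    · rw [lintegral_add_left m, lintegral_const_mul' _ _ (by simp),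
        lintegral_const_mul' _ _ (by simp)]
      exact ENNReal.add_lt_top.2 ⟨ENNReal.mul_lt_top (by simp) h1.2,
        ENNReal.mul_lt_top (by simp) h3.2⟩
  smul_mem' := fun a g ⟨h1, h2⟩ => by
    refine ⟨⟨B.O.smul_mem h1.1 a, ?_⟩, B.O.smul_mem h1.1 a,
      fun P u v => (h2.good P u v).smul a, fun P => (h2.all P).smul a⟩
    refine (lintegral_congr (g := fun p => ENNReal.ofReal (‖a‖ ^ 2) *
      ENNReal.ofReal (‖p.ev g‖ ^ 2 * Dn p ^ T / B.sz p ^ N)) fun p => ?_).trans_lt ?_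
    · rw [← ENNReal.ofReal_mul (sq_nonneg _), Algebra.smul_def,
        (p.ev_mul (p.reg_of_mem (B.O.algebraMap_mem a)) (p.reg_of_mem h1.1)).2, p.ev_alg, norm_mul]
      congr 1
      ring
    · rw [lintegral_const_mul' _ _ ENNReal.ofReal_ne_top]
      exact ENNReal.mul_lt_top ENNReal.ofReal_lt_top h1.2

theorem Desc.fi (hB : Base B η k0) (hL : Lin B Dn ν) (R : Desc F) (k : ℕ) :
    ∃ N : ℕ, ∀ n g, R.L2 k n g → Ky.Fi B Dn N (R.a0 * (n + k)) g := by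
  have d0 : ∀ p, 0 < B.dn η k0 p := fun p =>
    Real.rpow_pos_of_pos (norm_pos_iff.2 (hB.ne p)) _
  obtain ⟨C, N, C0, hC⟩ := FCht.Tem.pos B (FCht.Tem.mul B (FCht.Tem.mul B
    (FCht.Tem.pow B hL.tem (fun p => (hL.pos p).le) (R.a0 * k))
    (FCht.Tem.pow B R.gs_tem R.gs_nonneg k) (fun p => (pow_pos (hL.pos p) _).le)
    fun p => pow_nonneg (R.gs_nonneg p) _) (B.tem_dn_inv hB)
    (fun p => mul_nonneg (pow_pos (hL.pos p) _).le (pow_nonneg (R.gs_nonneg p) _))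
    fun p => (inv_pos.2 (d0 p)).le)
  refine ⟨N, fun n g h => ⟨h.1, ?_⟩⟩
  refine (lintegral_mono_ae (g := fun p => ENNReal.ofReal C * ENNReal.ofReal
    (‖p.ev g‖ ^ 2 * (Dn p ^ (R.a0 * n) / R.gs p ^ k * B.dn η k0 p))) ?_).trans_lt ?_
  · filter_upwards [B.D.ae_of_gen (B.toCht.gen_ne (h := ⟨R.g0, R.sec0.mem⟩)
      fun e => R.g0_ne (congrArg Subtype.val e))] with p hp
    rw [← p.ev_of_mem R.sec0.mem] at hp
    have g0 : 0 < R.gs p := add_pos_of_pos_of_nonneg (pow_pos (norm_pos_iff.2 hp) 2)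
      (Finset.sum_nonneg fun _ _ => sq_nonneg _)
    have g1 := pow_pos g0 k
    have s0 := pow_pos (B.sz_pos p) N
    have a1 : Dn p ^ (R.a0 * k) / B.sz p ^ N ≤ C * (B.dn η k0 p / R.gs p ^ k) := by
      have := hC p
      rw [← div_eq_mul_inv, div_le_iff₀ (d0 p)] at this
      rw [div_le_iff₀ s0, mul_div_assoc', div_mul_eq_mul_div, le_div_iff₀ g1]
      linarith
    rw [← ENNReal.ofReal_mul C0.le]
    refine ENNReal.ofReal_le_ofReal ?_
    have a2 := mul_le_mul_of_nonneg_left a1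
      (mul_nonneg (sq_nonneg ‖p.ev g‖) (pow_pos (hL.pos p) (R.a0 * n)).le)
    rw [mul_add, pow_add]
    calc _ = ‖p.ev g‖ ^ 2 * Dn p ^ (R.a0 * n) * (Dn p ^ (R.a0 * k) / B.sz p ^ N) := by ring
      _ ≤ _ := a2
      _ = _ := by ring
  · rw [lintegral_const_mul' _ _ ENNReal.ofReal_ne_top]
    exact ENNReal.mul_lt_top ENNReal.ofReal_lt_top h.2

theorem Lin.cont_key (hL : Lin B Dn ν) : Continuous Dn := by
  have h : Continuous fun p => Real.exp (-(-Real.log (Dn p))) :=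
    Real.continuous_exp.comp (RD.Sm.cont hL.psh.1).neg
  simpa only [neg_neg, Real.exp_log (hL.pos _)] using h

theorem key (hB : Base B η k0) (hL : Lin B Dn ν) (R : Desc F) : Key R := by
  obtain ⟨κ, k, n0, κ0, H⟩ := R.low hB hL
  obtain ⟨N, hN⟩ := R.fi hB hL k
  refine ⟨k * R.A + 1, fun VV b0 => ?_⟩
  obtain ⟨A, hA, h⟩ := F.raise_all VV N (k * R.A + 1)
  obtain ⟨n, h1, h2, h3, h4⟩ := ((Ky.small κ0 hA R.a0 k).and ((eventually_ge_atTop n0).and
    ((eventually_ge_atTop b0).and (eventually_gt_atTop 0)))).exists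
  obtain ⟨m, g, hm, hg, hl⟩ := H n h2
  have hle : Submodule.span ℂ (range g) ≤
      F.sub hL.cont_key.measurable hL.pos N (k * R.A + 1) (R.a0 * (n + k)) :=
    Submodule.span_le.2 (by rintro _ ⟨i, rfl⟩; exact ⟨hN n _ (hl i), R.ord hB hL (hl i)⟩)
  obtain ⟨U, h5, h6, h7⟩ := h (R.a0 * (n + k)) (Nat.mul_pos R.pos (by omega)) _
    (FiniteDimensional.span_of_finite ℂ (finite_range g)) fun g hg => hle hg
  rw [finrank_span_eq_card hg, Fintype.card_fin] at h6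
  have h8 : A * (R.a0 * (n + k) + 1) ^ (ν - 1) < m := by exact_mod_cast h1.trans_le hm
  have h9 : U ≠ ⊥ := by
    rintro rfl
    rw [finrank_bot] at h6
    omega
  obtain ⟨p, hp, p0⟩ := U.exists_mem_ne_zero_of_ne_bot h9
  refine ⟨R.a0 * (n + k), p, ?_, dvd_mul_right _ _, p0, (hle (h5 hp)).2, h7 p hp⟩
  have := Nat.le_mul_of_pos_left (n + k) R.pos
  omega

end Pool.Agent.Lib.MP_5c318e_ag
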