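import Pool.Agent.Lib.MP_5c318e_ag.Ky.Tube
import Pool.Agent.Lib.MP_5c318e_ag.L.Count
import Pool.Agent.Lib.MP_5c318e_ag.W.LP
import Pool.Agent.Lib.MP_5c318e_ag.S.PDefs

/-! The lower count on a Riemann domain for a weight that is constant in the second group of
coordinates. -/

set_option autoImplicit false
set_option linter.unusedSectionVars false

namespace Pool.Agent.Lib.MP_5c318e_ag.Ky

open Set Filter Topology Metric MeasureTheory
open Pool.Agent.Lib.MP_9ff3e7_ag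

noncomputable section

variable {κ γ : Type} [Fintype κ] [Fintype γ] {S : Type} [TopologicalSpace S] [MeasurableSpace S]

theorem fderiv_of_const {D : RD (κ ⊕ γ) S} {G : S → ℝ} (hG : Ana D G)
    (hc : ∀ p, ∀ᶠ q in 𝓝 p, (∀ i, D.π q (Sum.inl i) = D.π p (Sum.inl i)) → G q = G p)
    (y : S) (ξ : κ ⊕ γ → ℂ) (hξ : prj κ γ ξ = 0) :
    fderiv ℝ (fun z => G (D.sec y z)) (D.π y) ξ = 0 := by
  let c : ℝ → κ ⊕ γ → ℂ := fun t => D.π y + t • ξ
  have c0 : c 0 = D.π y := by simp [c]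
  have h2 : HasDerivAt c ξ 0 := by
    have := ((hasDerivAt_id (0 : ℝ)).smul_const ξ).const_add (D.π y)
    rw [one_smul] at this
    exact this
  have h3 := (hG y).differentiableAt.hasFDerivAt.comp_hasDerivAt_of_eq 0 h2 c0.symm
  have tc : Tendsto c (𝓝 0) (𝓝 (D.π y)) := c0 ▸ h2.continuousAt.tendsto
  have ev : ((fun z => G (D.sec y z)) ∘ c) =ᶠ[𝓝 0] fun _ => G y := by
    filter_upwards [tc.eventually ((D.tendsto_sec y).eventually (hc y)),
      tc.eventually (D.π_sec_ev y)] with t h4 h5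
    refine h4 fun i => ?_
    have := congrFun hξ (Sum.inl i)
    rw [prj_inl] at this
    rw [h5]
    simp [c, this]
  exact h3.unique ((hasDerivAt_const (0 : ℝ) (G y)).congr_of_eventuallyEq ev)

theorem prj_prj (ξ : κ ⊕ γ → ℂ) : prj κ γ (ξ - prj κ γ ξ) = 0 := by
  funext i
  rcases i with k | k <;> simp

theorem levi_zero_vec {ι : Type} [Fintype ι] (φ : (ι → ℂ) → ℝ) (x : ι → ℂ) : F.levi φ x 0 = 0 := by
  have := F.levi_vec_smul φ x 0 0
  simpa using this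

theorem sum_sq_le {n : Type} [Fintype n] (v : n → ℂ) :
    ∑ i, ‖v i‖ ^ 2 ≤ Fintype.card n * ‖v‖ ^ 2 := by
  have := Finset.sum_le_card_nsmul Finset.univ (fun i => ‖v i‖ ^ 2) (‖v‖ ^ 2) fun i _ =>
    pow_le_pow_left₀ (norm_nonneg _) (norm_le_pi_norm v i) 2
  simpa using this

variable [BorelSpace S] [T2Space S] [SigmaCompactSpace S]

theorem low_rd (D : RD (κ ⊕ γ) S) {e : S → ℝ} (he : D.Exh e) {G : S → ℝ} (G0 : ∀ y, 0 < G y)
    (hG : Ana D G) (hρ : D.Psh fun y => -Real.log (G y))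
    (hc : ∀ p, ∀ᶠ q in 𝓝 p, (∀ i, D.π q (Sum.inl i) = D.π p (Sum.inl i)) → G q = G p)
    {n : Type} [Fintype n] {y0 : S} {s0 : S → n → ℂ} {A : ℝ}
    (hs : Function.Surjective (D.fd s0 y0))
    (hA : ∀ᶠ y in 𝓝 y0, DifferentiableAt ℂ (fun z => s0 (D.sec y z)) (D.π y) ∧
      ∀ ξ, ‖D.fd s0 y ξ‖ ^ 2 ≤ A * D.levi (fun y => -Real.log (G y)) y ξ)
    {ψ : S → ℝ} (hψ : D.Psh ψ) (hm : ∫⁻ y, ENNReal.ofReal (Real.exp (-ψ y)) ∂D.μ < ⊤) :
    ∃ (c : ℝ) (k n0 : ℕ), 0 < c ∧ ∀ N : ℕ, n0 ≤ N → ∃ (m : ℕ) (u : Fin m → S → ℂ),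
      c * (N : ℝ) ^ Fintype.card n ≤ m ∧ LinearIndependent ℂ u ∧ ∀ i, D.Hol (u i) ∧
        ∫⁻ y, ENNReal.ofReal (‖u i y‖ ^ 2 * (G y ^ N / (∑ j, ‖D.π y (Sum.inl j)‖ ^ 2 + 1) ^ k *
          Real.exp (-ψ y))) ∂D.μ < ⊤ := by
  set z0 := D.π y0 with hz0
  set ρ : S → ℝ := fun y => -Real.log (G y) with hρd
  have cG : Continuous G := RD.cont_of_sec fun x => (hG x).continuousAt
  have e1 : ∀ᶠ z in 𝓝 z0, z ∈ (D.ch y0).target ∧ G (D.sec y0 z) < G y0 + 1 ∧
      DifferentiableAt ℂ (fun w => s0 (D.sec (D.sec y0 z) w)) (D.π (D.sec y0 z)) ∧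
      ∀ ξ, ‖D.fd s0 (D.sec y0 z) ξ‖ ^ 2 ≤ A * D.levi ρ (D.sec y0 z) ξ :=
    Filter.Eventually.and (RD.tgt_nhds (D.mem_tgt y0)) ((D.tendsto_sec y0).eventually
      ((cG.continuousAt.eventually (gt_mem_nhds (lt_add_one _))).and hA))
  obtain ⟨r, r0, hr⟩ := Metric.eventually_nhds_iff_ball.1 e1
  obtain ⟨T, oT, y0T, hb, hg, hcl⟩ := tube D hG (fderiv_of_const hG hc) y0 r0 fun z hz => (hr z hz).1
  let Ls : (κ ⊕ γ → ℂ) → (κ ⊕ γ → ℂ) →L[ℂ] (n → ℂ) := fun z => fderiv ℂ (fun w => s0 (D.sec y0 w)) z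
  have hd : ∀ z ∈ ball z0 r, HasFDerivAt (fun w => s0 (D.sec y0 w)) (Ls z) z ∧
      ∀ ξ, ‖Ls z ξ‖ ^ 2 ≤ A * F.levi (fun w => ρ (D.sec y0 w)) z ξ := fun z hz => by
    obtain ⟨h1, -, h3, h4⟩ := hr z hz
    simp only [RD.fd, RD.levi, RD.π_sec h1] at h3 h4
    refine ⟨(h3.congr_of_eventuallyEq (RD.germ_f s0 h1)).hasFDerivAt, fun ξ => ?_⟩
    have := h4 ξ
    rwa [← (RD.germ_f s0 h1).fderiv_eq, ← F.levi_congr (RD.germ_f ρ h1)] at this
  let s : n → S → ℂ := fun i y => s0 (D.sec y0 (ret z0 (D.π y))) i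
  let b : κ → S → ℂ := fun j y => D.π y (Sum.inl j)
  have hsd : ∀ x ∈ T, HasFDerivAt (fun z i => s i (D.sec x z))
      ((Ls (ret z0 (D.π x))).comp (prj κ γ)) (D.π x) := fun x hx => by
    refine ((hd _ (hb x hx)).1.comp _ (ret_hasFDerivAt z0 (D.π x))).congr_of_eventuallyEq ?_
    filter_upwards [D.π_sec_ev x] with z hz
    funext i
    simp only [s, hz, Function.comp]
    rfl
  have hsi : ∀ x ∈ T, ∀ i, HasFDerivAt (fun z => s i (D.sec x z))
      ((ContinuousLinearMap.proj i).comp ((Ls (ret z0 (D.π x))).comp (prj κ γ))) (D.π x) :=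
    fun x hx i => hasFDerivAt_pi'.1 (hsd x hx) i
  have hsH : ∀ i, L.HolOn D T (s i) := fun i x hx => (hsi x hx i).differentiableAt
  have hbH : ∀ j, D.Hol (b j) := fun j => by
    simpa only [sub_zero] using RD.WP.hol_coord (D := D) (Sum.inl j) 0
  have hlv : ∀ x ∈ T, ∀ ξ, D.levi ρ x ξ =
      F.levi (fun w => ρ (D.sec y0 w)) (ret z0 (D.π x)) (prj κ γ ξ) := fun x hx ξ =>
    levi_ret hρ.1 (hr _ (hb x hx)).1 (Filter.mem_of_superset (oT.mem_nhds hx) fun y hy => by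
      simp only [ρ, mem_ofPred_eq]; rw [← hg y hy]) ξ
  set A' : ℝ := Fintype.card n * |A| + 1 with hA'
  have A0 : 0 < A' := by positivity
  have hdq : ∀ x ∈ T, ∀ ξ, L.dq D s x ξ ≤ A' * D.levi ρ x ξ := fun x hx ξ => by
    have h1 := (hd _ (hb x hx)).2 (prj κ γ ξ)
    rw [← hlv x hx] at h1
    have h2 := sum_sq_le (Ls (ret z0 (D.π x)) (prj κ γ ξ))
    have h3 : L.dq D s x ξ = ∑ i, ‖Ls (ret z0 (D.π x)) (prj κ γ ξ) i‖ ^ 2 :=
      Finset.sum_congr rfl fun i _ => by rw [(hsi x hx i).fderiv]; rfl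
    have h4 := hρ.2 x ξ
    have h5 : A * D.levi ρ x ξ ≤ |A| * D.levi ρ x ξ :=
      mul_le_mul_of_nonneg_right (le_abs_self A) h4
    have h6 : (0 : ℝ) ≤ Fintype.card n := Nat.cast_nonneg _
    rw [h3, hA']
    nlinarith [mul_le_mul_of_nonneg_left (h1.trans h5) h6]
  have hon : Function.Surjective (fderiv ℂ (fun z i => s i (D.sec y0 z)) (D.π y0)) := by
    rw [(hsd y0 y0T).fderiv, ← hz0, ret_self]
    intro v
    obtain ⟨ξ, hξ⟩ := hs v
    refine ⟨ξ, ?_⟩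
    have h1 := hA.self_of_nhds.2 (ξ - prj κ γ ξ)
    rw [hlv y0 y0T, prj_prj, levi_zero_vec, mul_zero, map_sub] at h1
    have h2 := norm_eq_zero.1 (pow_eq_zero_iff two_ne_zero |>.1 (le_antisymm h1 (sq_nonneg _)))
    rw [← hξ]
    exact (sub_eq_zero.1 h2).symm
  have hball : ∀ x, ∑ j, ‖b j x - b j y0‖ ^ 2 ≤ (r / 2) ^ 2 → ret z0 (D.π x) ∈ ball z0 r :=
    fun x hx => by
    refine lt_of_le_of_lt ((dist_pi_le_iff (r := r / 2) (by positivity)).2 fun i => ?_)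
      (by linarith)
    rcases i with j | j
    · rw [ret_inl, dist_eq_norm]
      exact (pow_le_pow_iff_left₀ (norm_nonneg _) (by positivity) two_ne_zero).1 ((Finset.single_le_sum
        (f := fun j => ‖b j x - b j y0‖ ^ 2) (fun _ _ => sq_nonneg _) (Finset.mem_univ j)).trans hx)
    · rw [ret_inr, dist_self]; positivity
  set Aa : Set S := {x | x ∈ T ∧ ∑ i, ‖s i x - s i y0‖ ^ 2 + ∑ j, ‖b j x - b j y0‖ ^ 2 ≤ (r / 2) ^ 2}
    with hAa
  have cb : Continuous fun x => ∑ j, ‖b j x - b j y0‖ ^ 2 :=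
    continuous_finsetSum _ fun j _ => ((hbH j).cont.sub continuous_const).norm.pow 2
  have hb2 : ∀ x ∈ Aa, ∑ j, ‖b j x - b j y0‖ ^ 2 ≤ (r / 2) ^ 2 := fun x hx =>
    le_trans (le_add_of_nonneg_left (Finset.sum_nonneg fun _ _ => sq_nonneg _)) hx.2
  have hcA : IsClosed Aa := by
    refine isClosed_of_closure_subset fun x hx => ?_
    have h1 : x ∈ T := hcl x (closure_mono (fun _ h => h.1) hx)
      (hball x (closure_minimal hb2 (isClosed_le cb continuous_const) hx))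
    have h2 : ContinuousAt (fun x => ∑ i, ‖s i x - s i y0‖ ^ 2 + ∑ j, ‖b j x - b j y0‖ ^ 2) x :=
      (tendsto_finsetSum _ fun i _ => (((hsH i).contAt h1).sub continuousAt_const).norm.pow 2).add
        cb.continuousAt
    exact ⟨h1, ContinuousWithinAt.closure_le hx h2.continuousWithinAt continuousWithinAt_const
      fun _ h => h.2⟩
  obtain ⟨c, K, t0, c0, K0, t00, H⟩ := L.lower_count D he oT hsH
    (fun j => L.holOn_of_hol (hbH j)) y0T (ρ := (r / 2) ^ 2) (by positivity) hAa hcA hon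
  set M : ℝ := (Fintype.card κ * (‖z0‖ + r) ^ 2 + 1) ^ 2 with hM
  refine ⟨c / A' ^ Fintype.card n, ⌈K * M⌉₊, ⌈t0 * A'⌉₊, by positivity, fun N hN => ?_⟩
  set k := ⌈K * M⌉₊
  have hq := RD.WP.psh_sos (D := D) Finset.univ (f := b) (fun j _ => hbH j) one_pos
  have p1 := RD.WP.psh_mul hρ (c := N) (Nat.cast_nonneg _)
  have p2 := RD.WP.psh_mul hq (c := k) (Nat.cast_nonneg _)
  have hΦ := RD.WP.psh_add (RD.WP.psh_add p1 p2) hψ
  have hexp : ∀ x, Real.exp (-(N * ρ x + k * Real.log (∑ j, ‖b j x‖ ^ 2 + 1) + ψ x)) =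
      G x ^ N / (∑ j, ‖b j x‖ ^ 2 + 1) ^ k * Real.exp (-ψ x) := fun x => by
    have h1 : (0 : ℝ) < ∑ j, ‖b j x‖ ^ 2 + 1 := by positivity
    rw [neg_add, neg_add, Real.exp_add, Real.exp_add, Real.exp_neg (k * _), Real.exp_nat_mul,
      Real.exp_log h1, hρd, mul_neg, neg_neg, Real.exp_nat_mul, Real.exp_log (G0 x), div_eq_mul_inv]
  obtain ⟨m, u, h1, h2, h3⟩ := H (N / A') (by
      rw [le_div_iff₀ A0]; exact (Nat.le_ceil _).trans (by exact_mod_cast hN)) _ hΦ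
    (fun x hx ξ => by
      rw [RD.WP.levi_add (p1.1.add p2.1) hψ.1, RD.WP.levi_add p1.1 p2.1, RD.levi_cmul _ hρ.1,
        RD.levi_cmul _ hq.1]
      have a1 : N / A' * L.dq D s x ξ ≤ N * D.levi ρ x ξ := by
        rw [div_mul_eq_mul_div, div_le_iff₀ A0, mul_assoc, mul_comm _ A']
        exact mul_le_mul_of_nonneg_left (hdq x hx.1 ξ) (Nat.cast_nonneg _)
      have a2 := F.le_levi_log_sos Finset.univ (f := fun j z => b j (D.sec x z))
        (fun j _ => RD.WP.ana (hbH j) x) (e := 1) (by positivity) ξ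
      simp only [RD.sec_self, one_mul] at a2
      have a3 : (∑ j, ‖b j x‖ ^ 2 + 1) ^ 2 ≤ M := by
        refine pow_le_pow_left₀ (by positivity) (add_le_add_left ?_ 1) 2
        have := Finset.sum_le_card_nsmul Finset.univ (fun j => ‖b j x‖ ^ 2) ((‖z0‖ + r) ^ 2)
          fun j _ => pow_le_pow_left₀ (norm_nonneg _) (by
            have h5 := (norm_le_pi_norm (ret z0 (D.π x)) (Sum.inl j)).trans
              (norm_le_norm_add_const_of_dist_le (hb x hx.1).le)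
            rwa [ret_inl] at h5) 2
        simpa using this
      have a4 : K * L.dq D b x ξ ≤ k * (L.dq D b x ξ / (∑ j, ‖b j x‖ ^ 2 + 1) ^ 2) := by
        rw [← mul_div_assoc, le_div_iff₀ (by positivity), mul_right_comm]
        exact mul_le_mul_of_nonneg_right
          ((mul_le_mul_of_nonneg_left a3 K0.le).trans (Nat.le_ceil _)) (L.dq_nonneg _ _ _ _)
      have a5 := mul_le_mul_of_nonneg_left a2 (Nat.cast_nonneg (α := ℝ) k)
      have a6 := hψ.2 x ξ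
      exact (add_le_add a1 (a4.trans a5)).trans (le_add_of_nonneg_right a6))
    (fun _ => 1) (L.holOn_const 1) (fun _ _ => one_ne_zero) (by
      have a1 : ∀ x ∈ Aa, ENNReal.ofReal (‖(1 : ℂ)‖ ^ 2 *
          Real.exp (-(N * ρ x + k * Real.log (∑ j, ‖b j x‖ ^ 2 + 1) + ψ x))) ≤
          ENNReal.ofReal ((G y0 + 1) ^ N) * ENNReal.ofReal (Real.exp (-ψ x)) := fun x hx => by
        have g1 : G x ≤ G y0 + 1 := by rw [hg x hx.1]; exact (hr _ (hb x hx.1)).2.1.le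
        rw [hexp, ← ENNReal.ofReal_mul (pow_nonneg (by linarith [G0 y0]) _), norm_one, one_pow,
          one_mul]
        refine ENNReal.ofReal_le_ofReal (mul_le_mul_of_nonneg_right ?_ (Real.exp_pos _).le)
        refine (div_le_self (pow_nonneg (G0 x).le _) (one_le_pow₀ ?_)).trans
          (pow_le_pow_left₀ (G0 x).le g1 _)
        exact le_add_of_nonneg_left (Finset.sum_nonneg fun _ _ => sq_nonneg _)
      refine lt_of_le_of_lt (setLIntegral_mono' hcA.measurableSet a1) ?_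
      rw [lintegral_const_mul' _ _ ENNReal.ofReal_ne_top]
      exact ENNReal.mul_lt_top ENNReal.ofReal_lt_top ((setLIntegral_le_lintegral _ _).trans_lt hm))
  refine ⟨m, u, ?_, h2, fun i => ⟨(h3 i).1, ?_⟩⟩
  · rwa [div_pow, ← mul_div_assoc, ← div_mul_eq_mul_div] at h1
  · simpa only [hexp] using (h3 i).2

end

end Pool.Agent.Lib.MP_5c318e_ag.Ky
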