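import Pool.Agent.Lib.MP_5c318e_ag.Z.LDefs
import Pool.Agent.Lib.MP_5c318e_ag.S.ModA
import Pool.Agent.Lib.MP_5c318e_ag.W.FibLift

/-! Moderate growth on a finite chart; rationality of functions of moderate growth. -/

set_option autoImplicit false

namespace Pool.Agent.Lib.MP_5c318e_ag

open MeasureTheory Set Filter Topology

variable {δ K : Type} [Fintype δ] [DecidableEq δ] [Field K] [Algebra ℂ K]

namespace FCht

variable (B : FCht δ K)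

theorem dv_ne (p : Pt B.O) : B.dv p ≠ 0 := by
  obtain ⟨C, -, e, -⟩ := B.toCht.cov B.fin
  rw [dv, ← e]
  exact C.Δ_ne p

theorem one_le_sz (p : Pt B.O) : 1 ≤ B.sz p := one_le_msz _ _

theorem sz_pos (p : Pt B.O) : 0 < B.sz p := one_pos.trans_le (B.one_le_sz p)

theorem le_sz (p : Pt B.O) : 1 + ‖B.D.π p‖ ≤ B.sz p := msz_ge _ _

theorem inv_le_sz (p : Pt B.O) : ‖B.dv p‖⁻¹ ≤ B.sz p := inv_le_msz _ _

theorem continuous_sz : Continuous B.sz := continuous_iff_continuousAt.2 fun p =>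
  (msz_contAt B.fin.Δ (B.dv_ne p)).comp B.D.loc.continuous.continuousAt

theorem Tem.nf {B : FCht δ K} {u : Pt B.O → ℝ} (hu : B.Tem u) :
    ∃ (A : ℝ) (N : ℕ), 1 ≤ A ∧ ∀ p, u p ≤ A * B.sz p ^ N := by
  obtain ⟨A, N, h⟩ := hu
  exact ⟨max A 1, N, le_max_right _ _, fun p => (h p).trans
    (mul_le_mul_of_nonneg_right (le_max_left _ _) (pow_pos (B.sz_pos p) _).le)⟩

theorem Tem.pos {u : Pt B.O → ℝ} (h : B.Tem u) :
    ∃ (A : ℝ) (N : ℕ), 0 < A ∧ ∀ p, u p ≤ A * B.sz p ^ N :=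
  let ⟨A, N, h1, h2⟩ := h.nf
  ⟨A, N, one_pos.trans_le h1, h2⟩

theorem continuous_dv : Continuous B.dv := (mv_cont _).comp B.D.cont_π

theorem tem_const (c : ℝ) : B.Tem fun _ => c := ⟨c, 0, fun _ => by simp⟩

theorem tem_sz : B.Tem B.sz := ⟨1, 1, fun _ => by simp⟩

theorem tem_O (φ : B.O) : B.Tem fun p => ‖p φ‖ := by
  obtain ⟨P, j, hP⟩ := B.fin.gen_pt φ
  obtain ⟨A, N, hA, h⟩ := root_size B.fin.monic
  obtain ⟨A', N', hA', h'⟩ := pl_ev2 P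
  refine ⟨A' * (A + 1) ^ N', (N + 1) * N' + j, fun p => ?_⟩
  have h1 := hP p
  have h2 := B.fin.root_pt p
  rw [Pt.map_complex, Polynomial.map_id, ← B.toCht.π_fun] at h1 h2
  have s1 := B.one_le_sz p
  have s2 : ‖B.D.π p‖ ≤ B.sz p := by linarith [B.le_sz p]
  have r1 : B.sz p ≤ (A + 1) * B.sz p ^ (N + 1) := (le_self_pow₀ s1 N.succ_ne_zero).trans
    (le_mul_of_one_le_left (by positivity) (by linarith))
  have r2 : ‖(B.D.π p, p B.fin.w)‖ ≤ (A + 1) * B.sz p ^ (N + 1) := by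
    rw [Prod.norm_mk]
    exact max_le (s2.trans r1) ((h _ s1 _ _ s2 h2).trans (mul_le_mul (by linarith)
      (pow_le_pow_right₀ s1 N.le_succ) (by positivity) (by positivity)))
  have h3 := (h' _ (s1.trans r1) _ _ r2 r2).1
  have h4 : p φ = ev2 P (B.D.π p) (p B.fin.w) * (B.dv p)⁻¹ ^ j := by
    rw [← h1, inv_pow]
    exact (mul_inv_cancel_right₀ (pow_ne_zero j (B.dv_ne p)) _).symm
  show ‖p φ‖ ≤ _
  rw [h4, norm_mul, norm_pow, norm_inv, pow_add, pow_mul, ← mul_assoc, mul_assoc A', ← mul_pow]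
  exact mul_le_mul h3 (pow_le_pow_left₀ (by positivity) (B.inv_le_sz p) j) (by positivity)
    (by positivity)

theorem Tem.mul {u v : Pt B.O → ℝ} (hu : B.Tem u) (hv : B.Tem v) (u0 : ∀ p, 0 ≤ u p)
    (v0 : ∀ p, 0 ≤ v p) : B.Tem fun p => u p * v p := by
  obtain ⟨A, N, h⟩ := hu
  obtain ⟨A', N', h'⟩ := hv
  refine ⟨A * A', N + N', fun p => (mul_le_mul (h p) (h' p) (v0 p) ((u0 p).trans (h p))).trans_eq ?_⟩
  ring

theorem Tem.add {u v : Pt B.O → ℝ} (hu : B.Tem u) (hv : B.Tem v) : B.Tem fun p => u p + v p := by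
  obtain ⟨A, N, hA, h⟩ := hu.nf
  obtain ⟨A', N', hA', h'⟩ := hv.nf
  refine ⟨A + A', N + N', fun p => ?_⟩
  have s := B.one_le_sz p
  rw [add_mul]
  exact add_le_add ((h p).trans (by gcongr; omega)) ((h' p).trans (by gcongr; omega))

theorem Tem.pow {u : Pt B.O → ℝ} (hu : B.Tem u) (u0 : ∀ p, 0 ≤ u p) (n : ℕ) :
    B.Tem fun p => u p ^ n := by
  obtain ⟨A, N, h⟩ := hu
  exact ⟨A ^ n, N * n, fun p => by
    rw [pow_mul, ← mul_pow]
    exact pow_le_pow_left₀ (u0 p) (h p) n⟩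

theorem Tem.mono {u v : Pt B.O → ℝ} (hv : B.Tem v) (h : ∀ p, u p ≤ v p) : B.Tem u :=
  let ⟨A, N, h'⟩ := hv
  ⟨A, N, fun p => (h p).trans (h' p)⟩

theorem Tem.sum {ι : Type} (s : Finset ι) {u : ι → Pt B.O → ℝ} (h : ∀ i ∈ s, B.Tem (u i)) :
    B.Tem fun p => ∑ i ∈ s, u i p := by
  classical
  induction s using Finset.induction_on with
  | empty => exact B.tem_const 0
  | insert a s ha ih =>
    simp only [Finset.sum_insert ha]
    exact Tem.add B (h a (Finset.mem_insert_self _ _))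
      (ih fun i hi => h i (Finset.mem_insert_of_mem hi))

theorem Tem.rpow {u : Pt B.O → ℝ} (hu : B.Tem u) (u0 : ∀ p, 0 ≤ u p) {s : ℝ} (hs : 0 ≤ s) :
    B.Tem fun p => u p ^ s := by
  refine Tem.mono B (Tem.pow B (Tem.add B hu (B.tem_const 1))
    (fun p => add_nonneg (u0 p) zero_le_one) ⌈s⌉₊) fun p => ?_
  rw [← Real.rpow_natCast]
  exact (Real.rpow_le_rpow (u0 p) (le_add_of_nonneg_right zero_le_one) hs).trans
    (Real.rpow_le_rpow_of_exponent_le (le_add_of_nonneg_left (u0 p)) (Nat.le_ceil s))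

/-- a regular function without zeros is a unit -/
theorem unit_of_ne {φ : B.O} (h : ∀ p : Pt B.O, p φ ≠ 0) : IsUnit φ := by
  by_contra hu
  obtain ⟨p, hp⟩ := Pt.exists_zero (Ideal.span_singleton_ne_top hu)
  exact h p (hp _ (Ideal.mem_span_singleton_self φ))

theorem exists_inv {a : B.O} (h : ∀ p : Pt B.O, p a ≠ 0) : ∃ b : B.O, b * a = 1 :=
  (B.unit_of_ne h).exists_left_inv

theorem tem_inv {φ : B.O} (h : ∀ p : Pt B.O, p φ ≠ 0) : B.Tem fun p => ‖p φ‖⁻¹ := by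
  obtain ⟨ψ, e⟩ := (B.unit_of_ne h).exists_left_inv
  refine Tem.mono B (B.tem_O ψ) fun p => le_of_eq ?_
  have := congrArg p e
  rw [map_mul, map_one] at this
  rw [eq_inv_of_mul_eq_one_left this, norm_inv]

theorem tem_dn {η : K} {k0 : ℕ} (h : η ∈ B.O) : B.Tem (B.dn η k0) :=
  Tem.mono B (Tem.rpow B (B.tem_O ⟨η, h⟩) (fun _ => norm_nonneg _) (s := 2 / k0) (by positivity))
    fun p => by rw [dn, p.ev_of_mem h]

theorem tem_dn_inv {η : K} {k0 : ℕ} (h : Base B η k0) : B.Tem fun p => (B.dn η k0 p)⁻¹ :=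
  Tem.mono B (Tem.rpow B (B.tem_inv (φ := ⟨η, h.mem⟩) fun p => p.ev_of_mem h.mem ▸ h.ne p)
    (fun _ => by positivity) (s := 2 / k0) (by positivity)) fun p => by
      rw [dn, p.ev_of_mem h.mem, Real.inv_rpow (norm_nonneg _)]

theorem sz_le : ∃ (C : ℝ) (M : ℕ), 0 ≤ C ∧
    ∀ p, B.sz p * ‖B.dv p‖ ^ 2 ≤ C * (1 + ‖B.D.π p‖ ^ 2) ^ M := by
  obtain ⟨A, M, hA, h⟩ := mv_growth B.fin.Δ
  refine ⟨2 * (A * 2 ^ M + (A * 2 ^ M) ^ 2), 2 * M + 1, by positivity, fun p => ?_⟩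
  have d0 := norm_ne_zero_iff.2 (B.dv_ne p)
  have e : B.sz p * ‖B.dv p‖ ^ 2 = (1 + ‖B.D.π p‖) * (‖B.dv p‖ + ‖B.dv p‖ ^ 2) := by
    rw [sz]
    field_simp
  have h1 : ‖B.dv p‖ ≤ _ := h (B.D.π p)
  rw [e]
  have t1 : 1 ≤ 1 + ‖B.D.π p‖ ^ 2 := le_add_of_nonneg_right (sq_nonneg _)
  have t2 : 1 + ‖B.D.π p‖ ≤ 2 * (1 + ‖B.D.π p‖ ^ 2) := by nlinarith [sq_nonneg (‖B.D.π p‖ - 1)]
  have h2 : ‖B.dv p‖ ≤ A * 2 ^ M * (1 + ‖B.D.π p‖ ^ 2) ^ M := by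
    rw [mul_assoc, ← mul_pow]
    exact h1.trans (by gcongr)
  have h3 : ‖B.dv p‖ ≤ A * 2 ^ M * (1 + ‖B.D.π p‖ ^ 2) ^ (2 * M) :=
    h2.trans (by gcongr; omega)
  have h4 : ‖B.dv p‖ ^ 2 ≤ (A * 2 ^ M) ^ 2 * (1 + ‖B.D.π p‖ ^ 2) ^ (2 * M) := by
    rw [pow_mul', ← mul_pow]
    gcongr
  exact (mul_le_mul t2 (add_le_add h3 h4) (by positivity) (by positivity)).trans_eq (by ring)

/-- RAT -/
theorem rat {u : Pt B.O → ℂ}
    (hu : ∀ᶠ p in B.D.gen, DifferentiableAt ℂ (fun z => u (B.D.sec p z)) (B.D.π p)) {N : ℕ}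
    (hi : ∫⁻ p, ENNReal.ofReal (‖u p‖ ^ 2 / B.sz p ^ N) ∂B.D.μ < ⊤) :
    ∃ φ : B.O, ∀ᶠ p in B.D.gen, u p = p φ := by
  obtain ⟨g, hg, hu⟩ := hu
  obtain ⟨C, M, hC, h⟩ := B.sz_le
  obtain ⟨φ, hφ⟩ := B.toCht.ratL2 B.fin hg hu N (M * N) (by
    refine lt_of_le_of_lt ((setLIntegral_le_lintegral _ _).trans (lintegral_mono (g := fun p =>
      ENNReal.ofReal (C ^ N) * ENNReal.ofReal (‖u p‖ ^ 2 / B.sz p ^ N)) fun p => ?_)) ?_
    · beta_reduce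
      rw [← ENNReal.ofReal_mul (by positivity)]
      refine ENNReal.ofReal_le_ofReal ?_
      have s := B.sz_pos p
      have k := pow_le_pow_left₀ (by positivity) (h p) N
      rw [mul_pow, mul_pow, ← pow_mul, ← pow_mul] at k
      rw [← mul_div_assoc, div_le_div_iff₀ (by positivity) (by positivity)]
      exact (mul_le_mul_of_nonneg_left k (sq_nonneg ‖u p‖)).trans_eq' (by rw [dv]; ring) |>.trans_eq
        (by ring)
    · rw [lintegral_const_mul' _ _ ENNReal.ofReal_ne_top]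
      exact ENNReal.mul_lt_top ENNReal.ofReal_lt_top hi)
  exact ⟨φ, g, hg, hφ⟩

end FCht

end Pool.Agent.Lib.MP_5c318e_ag
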