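import Pool.Agent.Lib.MP_5c318e_ag.Ky.KDefs
import Pool.Agent.Lib.MP_5c318e_ag.Ky.LowA
import Pool.Agent.Lib.MP_5c318e_ag.Ky.Tem
import Pool.Agent.Lib.MP_5c318e_ag.Ky.Tra
import Pool.Agent.Lib.MP_5c318e_ag.C.Siz
import Pool.Agent.Lib.MP_5c318e_ag.U.HypA

/-! The lower count for the spaces of the key step. -/

set_option autoImplicit false
set_option linter.unusedSectionVars false

namespace Pool.Agent.Lib.MP_5c318e_ag

open Set Filter Topology MeasureTheory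
open Pool.Agent.Lib.MP_9ff3e7_ag

theorem Ky.plh {ι : Type} [Fintype ι] {S : Type} [TopologicalSpace S] [MeasurableSpace S]
    {D : RD ι S} {f : S → ℂ} (hf : D.Hol f) (h0 : ∀ x, f x ≠ 0) (c : ℝ) :
    D.Psh (fun x => c * Real.log (‖f x‖ ^ 2)) ∧
      ∀ x ξ, D.levi (fun x => c * Real.log (‖f x‖ ^ 2)) x ξ = 0 := by
  have h1 : D.Sm fun x => Real.log (‖f x‖ ^ 2) := (RD.WP.hol_sm hf).normSq.comp_at fun x =>
    Real.contDiffAt_log.2 (pow_ne_zero 2 (norm_ne_zero_iff.2 (h0 x)))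
  have h2 : ∀ x ξ, D.levi (fun x => c * Real.log (‖f x‖ ^ 2)) x ξ = 0 := fun x ξ => by
    rw [RD.levi_cmul c h1, RD.levi, Hyp.levi_log_normSq (f := fun z => f (D.sec x z))
      (RD.WP.ana hf x) (by rw [D.sec_self]; exact h0 x), mul_zero]
  exact ⟨⟨(RD.sm_const c).mul h1, fun x ξ => (h2 x ξ).ge⟩, h2⟩

variable {δ K : Type} [Fintype δ] [DecidableEq δ] [Field K] [Algebra ℂ K]
  {B : FCht δ K} {η : K} {k0 : ℕ} {Dn : Pt B.O → ℝ} {ν : ℕ} {Γ : Type} [Group Γ]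
  {c : G.Coc (Pt B.O) Γ} {F : Prof B η k0 Dn ν c}

theorem Desc.gs_tem (R : Desc F) : B.Tem R.gs := by
  have h : ∀ g ∈ B.O, B.Tem fun p => ‖p.ev g‖ ^ 2 := fun g hg =>
    FCht.Tem.mono B (FCht.Tem.pow B (B.tem_O ⟨g, hg⟩) (fun _ => norm_nonneg _) 2) fun p => by
      rw [p.ev_of_mem hg]
  exact FCht.Tem.add B (h _ R.sec0.mem) (FCht.Tem.sum B _ fun i _ => h _ (R.sec i).mem)

theorem Desc.gs_nonneg (R : Desc F) (p : Pt B.O) : 0 ≤ R.gs p :=
  add_nonneg (sq_nonneg _) (Finset.sum_nonneg fun _ _ => sq_nonneg _)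

theorem Desc.gs_meas (R : Desc F) : Measurable R.gs :=
  ((Pt.measurable_ev _).norm.pow_const 2).add
    (Finset.measurable_sum _ fun _ _ => (Pt.measurable_ev _).norm.pow_const 2)

theorem Desc.low (hB : Base B η k0) (hL : Lin B Dn ν) (R : Desc F) :
    ∃ (κ : ℝ) (k n0 : ℕ), 0 < κ ∧ ∀ n, n0 ≤ n → ∃ (m : ℕ) (g : Fin m → K), κ * (n : ℝ) ^ ν ≤ m ∧
      LinearIndependent ℂ g ∧ ∀ i, R.L2 k n (g i) := by
  obtain ⟨h, h0, hS⟩ := R.loc
  obtain ⟨J, hJ, hsur, hcv, hdesc⟩ := Cht.res_loc R.inc R.inc_eq h0 hS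
  let g0 : R.S.O := R.inc ⟨R.g0, R.sec0.mem⟩
  let η0 : R.S.O := R.inc ⟨η, hB.mem⟩
  have e0 : ∀ q : Pt R.S.O, q.ev R.g0 = q g0 := fun q => by
    rw [← q.ev_coe, R.inc_eq]
  have e0' : ∀ q : Pt R.S.O, (q.res R.inc).ev R.g0 = q g0 := fun q => by
    rw [Pt.ev_of_mem _ R.sec0.mem]; rfl
  have eη : ∀ q : Pt R.S.O, (q.res R.inc).ev η = q η0 := fun q => by
    rw [Pt.ev_of_mem _ hB.mem]; rfl
  have n0 : ∀ q : Pt R.S.O, q g0 ≠ 0 := fun q => e0 q ▸ R.unit q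
  have nη : ∀ q : Pt R.S.O, q η0 ≠ 0 := fun q => eη q ▸ hB.ne _
  have egs : ∀ q : Pt R.S.O, R.gs (q.res R.inc) =
      ‖q g0‖ ^ 2 * (∑ j, ‖R.S.D.π q (Sum.inl j)‖ ^ 2 + 1) := fun q => by
    have : ∀ j, (q.res R.inc).ev (R.g0 * R.S.z (Sum.inl j)) = q g0 * R.S.D.π q (Sum.inl j) :=
      fun j => by
      rw [← (Cht.res_ev R.inc R.inc_eq q (Pt.reg_of_mem _ (R.sec j).mem)).2,
        (q.ev_mul (Cht.res_ev R.inc R.inc_eq q (Pt.reg_of_mem _ R.sec0.mem)).1 (q.reg_coe _)).2,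
        e0, q.ev_coe, R.S.π_eq]
    simp only [Desc.gs, e0', this, norm_mul, mul_pow, mul_add, Finset.mul_sum, mul_one, add_comm]
  let G : Pt R.S.O → ℝ := fun q => ‖q g0‖ ^ 2 * Dn (q.res R.inc) ^ R.a0
  have G0 : ∀ q, 0 < G q := fun q =>
    mul_pos (pow_pos (norm_pos_iff.2 (n0 q)) 2) (pow_pos (hL.pos _) _)
  have hG : Ky.Ana R.S.D G := fun q => by
    have a1 : AnalyticAt ℝ (fun y => R.S.D.sec q y g0) (R.S.D.π q) :=
      (RD.WP.ana (R.S.hol g0) q).restrictScalars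
    have a2 : AnalyticAt ℝ (fun y => ‖R.S.D.sec q y g0‖ ^ 2) (R.S.D.π q) := by
      have a3 := ((Complex.reCLM.analyticAt _).comp a1).pow 2
      have a4 := ((Complex.imCLM.analyticAt _).comp a1).pow 2
      refine (a3.add a4).congr (Eventually.of_forall fun y => ?_)
      simp only [Complex.sq_norm, Complex.normSq_apply]
      simp [sq]
    exact a2.mul ((Cht.res_ana R.inc R.inc_eq hL.ana q).pow _)
  obtain ⟨sφ, lφ⟩ := Cht.res_levi R.inc R.inc_eq hL.psh.1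
  obtain ⟨pg, lg⟩ := Ky.plh (R.S.hol g0) n0 (-1)
  have eρ : (fun q => -Real.log (G q)) = fun q => -1 * Real.log (‖q g0‖ ^ 2) +
      R.a0 * -Real.log (Dn (q.res R.inc)) := funext fun q => by
    simp only [G]
    rw [Real.log_mul (pow_ne_zero 2 (norm_ne_zero_iff.2 (n0 q))) (pow_pos (hL.pos _) _).ne',
      Real.log_pow (Dn _)]
    ring
  have lρ : ∀ q ξ, R.S.D.levi (fun q => -Real.log (G q)) q ξ =
      R.a0 * B.D.levi (fun p => -Real.log (Dn p)) (q.res R.inc)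
        (R.S.D.fd (fun q => B.D.π (q.res R.inc)) q ξ) := fun q ξ => by
    rw [eρ, RD.WP.levi_add pg.1 ((RD.sm_const _).mul sφ), lg, zero_add, RD.levi_cmul _ sφ, lφ]
  have hρ : R.S.D.Psh fun q => -Real.log (G q) :=
    ⟨eρ ▸ pg.1.add ((RD.sm_const _).mul sφ), fun q ξ => by
      rw [lρ]; exact mul_nonneg (Nat.cast_nonneg _) (hL.psh.2 _ _)⟩
  have hc : ∀ p, ∀ᶠ q in 𝓝 p, (∀ i, R.S.D.π q (Sum.inl i) = R.S.D.π p (Sum.inl i)) → G q = G p :=
    fun p => (R.const p).mono fun q hq hi => by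
      have := hq fun i => by rw [← R.S.π_eq, ← R.S.π_eq, hi]
      rwa [e0, e0] at this
  obtain ⟨p1, -, hp1⟩ := Pt.exists_zero_ne (O := B.O) (I := ⊥) (h := h) fun hh =>
    h0 (by obtain ⟨n, hn⟩ := hh; exact pow_eq_zero_iff' |>.1 hn |>.1)
  obtain ⟨p0, hp0, s, A, hs, hA⟩ := hL.low {p | p h ≠ 0}
    (isOpen_ne_fun (Pt.continuous_apply h) continuous_const) ⟨p1, hp1⟩
  obtain ⟨y0, rfl⟩ := hsur p0 hp0
  have hch : ∀ y : Pt R.S.O,
      DifferentiableAt ℂ (fun z => s (B.D.sec (y.res R.inc) z)) (B.D.π (y.res R.inc)) →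
      HasFDerivAt (fun z => s ((R.S.D.sec y z).res R.inc)) ((B.D.fd s (y.res R.inc)).comp
        (R.S.D.fd (fun q => B.D.π (q.res R.inc)) y)) (R.S.D.π y) := fun y hy => by
    refine (HasFDerivAt.comp (g := fun z => s (B.D.sec (y.res R.inc) z)) _
      (by rw [R.S.D.sec_self]; exact hy.hasFDerivAt)
      (Cht.res_hol R.inc R.inc_eq y).hasFDerivAt).congr_of_eventuallyEq ?_
    filter_upwards [Cht.res_germ R.inc R.inc_eq y] with z hz
    exact congrArg s hz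
  have pψ := RD.WP.psh_add (Ky.plh (R.S.hol J) (fun q => (hJ q).1) (-1)).1
    (Ky.plh (R.S.hol η0) nη (-(1 / k0))).1
  have eψ : ∀ q : Pt R.S.O, Real.exp (-(-1 * Real.log (‖q J‖ ^ 2) +
      -(1 / k0) * Real.log (‖q η0‖ ^ 2))) = ‖q J‖ ^ 2 * B.dn η k0 (q.res R.inc) := fun q => by
    have a1 := norm_pos_iff.2 (nη q)
    rw [neg_add, Real.exp_add, neg_mul, one_mul, neg_neg,
      Real.exp_log (pow_pos (norm_pos_iff.2 (hJ q).1) 2), FCht.dn, eη, Real.rpow_def_of_pos a1,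
      Real.log_pow]
    congr 2
    push_cast
    ring
  have mdn : Measurable (B.dn η k0) := (Pt.measurable_ev _).norm.pow_const _
  obtain ⟨κ, k, m0, κ0, H⟩ := Ky.low_rd R.S.D R.S.exh G0 hG hρ hc (n := Fin ν) (y0 := y0)
    (s0 := fun q => s (q.res R.inc)) (A := |A|)
    (by rw [RD.fd, (hch y0 hA.self_of_nhds.1).fderiv]; exact hs.comp (hJ y0).2.2)
    (((Pt.continuous_res R.inc).continuousAt.eventually hA).mono fun y hy =>
      ⟨(hch y hy.1).differentiableAt, fun ξ => by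
        rw [RD.fd, (hch y hy.1).fderiv, lρ]
        have a1 := hL.psh.2 (y.res R.inc) (R.S.D.fd (fun q => B.D.π (q.res R.inc)) y ξ)
        have a2 : (1 : ℝ) ≤ R.a0 := by exact_mod_cast R.pos
        exact (hy.2 _).trans ((mul_le_mul_of_nonneg_right (le_abs_self A) a1).trans
          (mul_le_mul_of_nonneg_left (le_mul_of_one_le_left a1 a2) (abs_nonneg A)))⟩)
    pψ (by
      have := hB.mass
      rw [hcv _ mdn.ennreal_ofReal] at this
      simpa only [eψ, ENNReal.ofReal_mul (sq_nonneg _)] using this)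
  refine ⟨κ, k, m0, κ0, fun n hn => ?_⟩
  obtain ⟨m, u, h1, h2, h3⟩ := H n hn
  rw [Fintype.card_fin] at h1
  let W : Pt B.O → ℝ := fun p => Dn p ^ (R.a0 * n) / R.gs p ^ k * B.dn η k0 p
  have cD : Continuous Dn := RD.cont_of_sec fun p => (hL.ana p).continuousAt
  have mW : Measurable W :=
    ((cD.measurable.pow_const _).div (R.gs_meas.pow_const _)).mul mdn
  have d0 : ∀ p, 0 < B.dn η k0 p := fun p => Real.rpow_pos_of_pos (norm_pos_iff.2 (hB.ne p)) _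
  obtain ⟨A1, N1, A10, hA1⟩ := (FCht.Tem.mul B (FCht.Tem.mul B
    (FCht.Tem.pow B hL.tem' (fun p => (inv_pos.2 (hL.pos p)).le) (R.a0 * n))
    (FCht.Tem.pow B R.gs_tem R.gs_nonneg k) (fun p => pow_nonneg (inv_pos.2 (hL.pos p)).le _)
    fun p => pow_nonneg (R.gs_nonneg p) _) (B.tem_dn_inv hB)
    (fun p => mul_nonneg (pow_nonneg (inv_pos.2 (hL.pos p)).le _) (pow_nonneg (R.gs_nonneg p) _))
    fun p => (inv_pos.2 (d0 p)).le).nf
  have gh := B.gen_ne h0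
  have key : ∀ i, ∃ φ : B.O, R.L2 k n φ ∧
      ∀ᶠ q in R.S.D.gen, (q.res R.inc) φ = u i q * q g0 ^ (n + k) := fun i => by
    obtain ⟨v, mv, ev, dv⟩ := hdesc (fun q => u i q * q g0 ^ (n + k)) fun q =>
      ((h3 i).1 q).mul ((R.S.hol g0 q).pow _)
    have iv : ∫⁻ p, ENNReal.ofReal (‖v p‖ ^ 2 * W p) ∂B.D.μ < ⊤ := by
      rw [hcv (fun p => ENNReal.ofReal (‖v p‖ ^ 2 * W p))
        ((mv.norm.pow_const 2).mul mW).ennreal_ofReal]
      refine lt_of_eq_of_lt (lintegral_congr fun q => ?_) (h3 i).2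
      rw [← ENNReal.ofReal_mul (sq_nonneg _), eψ, ev]
      congr 1
      have a1 := norm_ne_zero_iff.2 (n0 q)
      have a2 : (0 : ℝ) < ∑ j, ‖R.S.D.π q (Sum.inl j)‖ ^ 2 + 1 := by positivity
      simp only [W, G, egs, norm_mul, norm_pow, mul_pow, pow_mul]
      field_simp
      ring
    obtain ⟨φ, hφ⟩ := B.rat (u := v) (N := N1) (gh.mono dv) (by
      refine lt_of_le_of_lt (lintegral_mono_ae ((B.D.ae_of_gen gh).mono fun p hp => ?_))
        (lt_of_eq_of_lt (lintegral_const_mul' (ENNReal.ofReal A1) _ ENNReal.ofReal_ne_top)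
          (ENNReal.mul_lt_top ENNReal.ofReal_lt_top iv))
      obtain ⟨q, rfl⟩ := hsur p hp
      have a1 : 0 < R.gs (q.res R.inc) := by
        rw [egs]
        exact mul_pos (pow_pos (norm_pos_iff.2 (n0 q)) 2) (by positivity)
      have a2 := hL.pos (q.res R.inc)
      have a3 := d0 (q.res R.inc)
      have a4 := pow_pos (B.sz_pos (q.res R.inc)) N1
      have a5 : 0 < W (q.res R.inc) := by simp only [W]; positivity
      rw [← ENNReal.ofReal_mul (by linarith)]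
      refine ENNReal.ofReal_le_ofReal ?_
      rw [div_le_iff₀ a4]
      have a6 := mul_le_mul_of_nonneg_left (hA1 (q.res R.inc))
        (mul_nonneg (sq_nonneg ‖v (q.res R.inc)‖) a5.le)
      refine le_trans (le_of_eq ?_) (a6.trans (le_of_eq (by ring)))
      simp only [W, inv_pow]
      field_simp)
    refine ⟨φ, ⟨φ.2, lt_of_eq_of_lt (lintegral_congr_ae ((B.D.ae_of_gen hφ).mono fun p hp => ?_))
      iv⟩, (Cht.res_gen R.inc R.inc_eq hφ).mono fun q hq => by rw [← hq, ev]⟩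
    simp only [Pt.ev_coe, hp, W]
  choose φ hφ1 hφ2 using key
  refine ⟨m, fun i => φ i, h1, Fintype.linearIndependent_iff.2 fun a ha => ?_, hφ1⟩
  have ha' : ∑ i, a i • φ i = 0 := Subtype.ext (by simpa using ha)
  have := R.S.D.openPos
  have c1 : Continuous fun q => ∑ i, a i * u i q :=
    continuous_finsetSum _ fun i _ => continuous_const.mul (h3 i).1.cont
  have z1 : (fun q => ∑ i, a i * u i q) = fun _ => 0 := by
    refine (c1.ae_eq_iff_eq R.S.D.μ continuous_const).1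
      ((R.S.D.ae_of_gen (eventually_all.2 hφ2)).mono fun q hq => ?_)
    have a1 := congrArg (q.res R.inc) ha'
    simp only [map_sum, map_smul, hq, smul_eq_mul, map_zero, ← mul_assoc, ← Finset.sum_mul] at a1
    exact (mul_eq_zero.1 a1).resolve_right (pow_ne_zero _ (n0 q))
  refine Fintype.linearIndependent_iff.1 h2 a (funext fun q => ?_)
  simpa using congrFun z1 q

end Pool.Agent.Lib.MP_5c318e_ag
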