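import Pool.Agent.Lib.MP_5c318e_ag.RD.RCalc
import Pool.Agent.Lib.MP_9ff3e7_ag.F.LeviC

/-! A function that is real analytic and constant in the second group of coordinates is, on an
open and relatively closed set, pulled back from one sheet. -/

set_option autoImplicit false
set_option linter.unusedSectionVars false

namespace Pool.Agent.Lib.MP_5c318e_ag.Ky

open Set Filter Topology Metric
open Pool.Agent.Lib.MP_9ff3e7_ag

noncomputable section

variable {κ γ : Type} [Fintype κ] [Fintype γ] {S : Type} [TopologicalSpace S] [MeasurableSpace S]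

/-- real analytic in the charts -/
def Ana {ι : Type} [Fintype ι] (D : RD ι S) (G : S → ℝ) : Prop :=
  ∀ x, AnalyticAt ℝ (fun z => G (D.sec x z)) (D.π x)

/-- the projection that kills the second group of coordinates -/
def prj (κ γ : Type) [Fintype κ] [Fintype γ] : (κ ⊕ γ → ℂ) →L[ℂ] (κ ⊕ γ → ℂ) :=
  ContinuousLinearMap.pi fun i => Sum.elim
    (fun k => (ContinuousLinearMap.proj (Sum.inl k) : (κ ⊕ γ → ℂ) →L[ℂ] ℂ)) (fun _ => 0) i

@[simp] theorem prj_inl (z : κ ⊕ γ → ℂ) (k : κ) : prj κ γ z (Sum.inl k) = z (Sum.inl k) := rfl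

@[simp] theorem prj_inr (z : κ ⊕ γ → ℂ) (k : γ) : prj κ γ z (Sum.inr k) = 0 := rfl

/-- the retraction onto the slice through `z0` -/
def ret (z0 z : κ ⊕ γ → ℂ) : κ ⊕ γ → ℂ := z0 + prj κ γ (z - z0)

@[simp] theorem ret_inl (z0 z : κ ⊕ γ → ℂ) (k : κ) : ret z0 z (Sum.inl k) = z (Sum.inl k) := by
  simp [ret]

@[simp] theorem ret_inr (z0 z : κ ⊕ γ → ℂ) (k : γ) : ret z0 z (Sum.inr k) = z0 (Sum.inr k) := by
  simp [ret]

theorem ret_self (z0 : κ ⊕ γ → ℂ) : ret z0 z0 = z0 := by simp [ret]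

theorem ret_hasFDerivAt (z0 z : κ ⊕ γ → ℂ) : HasFDerivAt (ret z0) (prj κ γ) z := by
  have := ((prj κ γ).hasFDerivAt (x := z - z0)).comp z ((hasFDerivAt_id z).sub_const z0)
  rw [ContinuousLinearMap.comp_id] at this
  exact this.const_add z0

theorem ret_ana (z0 z : κ ⊕ γ → ℂ) : AnalyticAt ℂ (ret z0) z :=
  analyticAt_const.add (((prj κ γ).analyticAt _).comp (analyticAt_id.sub analyticAt_const))

theorem ret_anaR (z0 z : κ ⊕ γ → ℂ) : AnalyticAt ℝ (ret z0) z :=
  analyticAt_const.add ((((prj κ γ).restrictScalars ℝ).analyticAt _).comp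
    (analyticAt_id.sub analyticAt_const))

theorem ret_cont (z0 : κ ⊕ γ → ℂ) : Continuous (ret z0) :=
  continuous_const.add ((prj κ γ).continuous.comp (continuous_id.sub continuous_const))

theorem dist_ret_le (z0 z : κ ⊕ γ → ℂ) : dist (ret z0 z) z0 ≤ dist z z0 := by
  refine (dist_pi_le_iff dist_nonneg).2 fun i => ?_
  rcases i with k | k
  · rw [ret_inl]; exact dist_le_pi_dist z z0 _
  · rw [ret_inr, dist_self]; exact dist_nonneg

theorem Ana.at {ι : Type} [Fintype ι] {D : RD ι S} {G : S → ℝ} (hG : Ana D G) {x : S} {z : ι → ℂ}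
    (hz : z ∈ (D.ch x).target) : AnalyticAt ℝ (fun w => G (D.sec x w)) z := by
  have := hG (D.sec x z)
  rw [RD.π_sec hz] at this
  exact this.congr (RD.germ_f G hz).symm

/-- constancy in the second group of coordinates on a ball of a chart -/
theorem const_ball {D : RD (κ ⊕ γ) S} {G : S → ℝ} (hG : Ana D G)
    (hx : ∀ y ξ, prj κ γ ξ = 0 → fderiv ℝ (fun z => G (D.sec y z)) (D.π y) ξ = 0)
    {y0 : S} {r : ℝ} (hr : ball (D.π y0) r ⊆ (D.ch y0).target) {z : κ ⊕ γ → ℂ}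
    (hz : z ∈ ball (D.π y0) r) : G (D.sec y0 z) = G (D.sec y0 (ret (D.π y0) z)) := by
  set z0 := D.π y0
  have hz1 : ret z0 z ∈ ball z0 r := lt_of_le_of_lt (dist_ret_le z0 z) hz
  let ξ := z - ret z0 z
  have hξ : prj κ γ ξ = 0 := by
    funext i
    rcases i with k | k <;> simp [ξ]
  let c : ℝ → κ ⊕ γ → ℂ := fun t => ret z0 z + t • ξ
  have hc : ∀ t ∈ Icc (0 : ℝ) 1, c t ∈ ball z0 r := fun t ht => by
    have := (convex_ball z0 r).add_smul_sub_mem hz1 hz ht
    exact this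
  have hd : ∀ t ∈ Icc (0 : ℝ) 1, HasDerivAt (fun t => G (D.sec y0 (c t))) 0 t := fun t ht => by
    have h1 := hr (hc t ht)
    have h2 : HasDerivAt c ξ t := by
      have := ((hasDerivAt_id t).smul_const ξ).const_add (ret z0 z)
      rw [one_smul] at this
      exact this
    have h3 := ((hG.at h1).differentiableAt.hasFDerivAt).comp_hasDerivAt t h2
    have h4 := hx (D.sec y0 (c t)) ξ hξ
    rw [RD.π_sec h1, ← (RD.germ_f G h1).fderiv_eq] at h4
    rw [h4] at h3
    exact h3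
  have := constant_of_has_deriv_right_zero (f := fun t => G (D.sec y0 (c t))) (a := 0) (b := 1)
    (fun t ht => (hd t ht).continuousAt.continuousWithinAt)
    (fun t ht => (hd t (Ico_subset_Icc_self ht)).hasDerivWithinAt) 1 (by simp)
  simpa [c, ξ] using this

/-- the tube -/
theorem tube (D : RD (κ ⊕ γ) S) {G : S → ℝ} (hG : Ana D G)
    (hx : ∀ y ξ, prj κ γ ξ = 0 → fderiv ℝ (fun z => G (D.sec y z)) (D.π y) ξ = 0)
    (y0 : S) {r : ℝ} (r0 : 0 < r) (hr : ball (D.π y0) r ⊆ (D.ch y0).target) :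
    ∃ T : Set S, IsOpen T ∧ y0 ∈ T ∧ (∀ y ∈ T, ret (D.π y0) (D.π y) ∈ ball (D.π y0) r) ∧
      (∀ y ∈ T, G y = G (D.sec y0 (ret (D.π y0) (D.π y)))) ∧
      ∀ y ∈ closure T, ret (D.π y0) (D.π y) ∈ ball (D.π y0) r → y ∈ T := by
  set z0 := D.π y0
  let R : S → κ ⊕ γ → ℂ := fun y => ret z0 (D.π y)
  have cR : Continuous R := (ret_cont z0).comp D.cont_π
  let W : Set S := {y | R y ∈ ball z0 r ∧ G y = G (D.sec y0 (R y))}
  refine ⟨interior W, isOpen_interior, ?_, fun y hy => (interior_subset hy).1,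
    fun y hy => (interior_subset hy).2, fun y hy hb => ?_⟩
  · rw [mem_interior_iff_mem_nhds]
    filter_upwards [(D.ch y0).open_source.mem_nhds (D.mem_src y0),
      D.cont_π.continuousAt.eventually (ball_mem_nhds z0 r0)] with y h1 h2
    refine ⟨lt_of_le_of_lt (dist_ret_le z0 _) h2, ?_⟩
    have := const_ball hG hx hr h2
    rwa [RD.sec_π h1] at this
  · have h1 : ∀ᶠ z in 𝓝 (D.π y), z ∈ (D.ch y).target ∧ ret z0 z ∈ ball z0 r :=
      Filter.Eventually.and (RD.tgt_nhds (D.mem_tgt y))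
        ((ret_cont z0).continuousAt.eventually (isOpen_ball.mem_nhds hb))
    obtain ⟨e, e0, he⟩ := Metric.eventually_nhds_iff_ball.1 h1
    have an : AnalyticOnNhd ℝ (fun z => G (D.sec y z) - G (D.sec y0 (ret z0 z))) (ball (D.π y) e) :=
      fun z hz => (hG.at (he z hz).1).sub
        (AnalyticAt.comp (g := fun w => G (D.sec y0 w)) (hG.at (hr (he z hz).2)) (ret_anaR z0 z))
    have nb : (D.ch y).source ∩ D.π ⁻¹' ball (D.π y) e ∈ 𝓝 y :=
      inter_mem ((D.ch y).open_source.mem_nhds (D.mem_src y))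
        (D.cont_π.continuousAt.preimage_mem_nhds (ball_mem_nhds _ e0))
    obtain ⟨y1, ⟨s1, b1⟩, t1⟩ := mem_closure_iff_nhds.1 hy _ nb
    have ev : (fun z => G (D.sec y z) - G (D.sec y0 (ret z0 z))) =ᶠ[𝓝 (D.π y1)] 0 := by
      have c1 : ContinuousAt (D.sec y) (D.π y1) := RD.sec_contAt (RD.π_mem s1)
      have m1 : W ∈ 𝓝 (D.sec y (D.π y1)) := by
        rw [RD.sec_π s1]; exact mem_interior_iff_mem_nhds.1 t1
      filter_upwards [c1.eventually m1, RD.tgt_nhds (RD.π_mem s1)] with z h2 h3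
      have := h2.2
      simp only [R, RD.π_sec h3] at this
      simp [this]
    have eq := an.eqOn_zero_of_preconnected_of_eventuallyEq_zero (convex_ball _ _).isPreconnected
      b1 ev
    rw [mem_interior_iff_mem_nhds]
    filter_upwards [nb] with y2 h2
    have h3 := eq h2.2
    simp only [RD.sec_π h2.1, Pi.zero_apply, sub_eq_zero] at h3
    exact ⟨(he _ h2.2).2, h3⟩

/-- the Levi form of a function pulled back from the slice -/
theorem levi_ret {D : RD (κ ⊕ γ) S} {ρ : S → ℝ} (hρ : D.Sm ρ) {y0 y : S}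
    (ht : ret (D.π y0) (D.π y) ∈ (D.ch y0).target)
    (h : ∀ᶠ y' in 𝓝 y, ρ y' = ρ (D.sec y0 (ret (D.π y0) (D.π y')))) (ξ : κ ⊕ γ → ℂ) :
    D.levi ρ y ξ = F.levi (fun z => ρ (D.sec y0 z)) (ret (D.π y0) (D.π y)) (prj κ γ ξ) := by
  have e : (fun z => ρ (D.sec y z)) =ᶠ[𝓝 (D.π y)] fun z => ρ (D.sec y0 (ret (D.π y0) z)) := by
    filter_upwards [(D.tendsto_sec y).eventually h, D.π_sec_ev y] with z h1 h2
    rw [h1, h2]
  rw [RD.levi, F.levi_congr e,
    F.levi_comp_holo (φ := fun z => ρ (D.sec y0 z)) ((hρ.at ht).of_le (by norm_cast))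
      (ret_ana _ _), (ret_hasFDerivAt _ _).fderiv]

end

end Pool.Agent.Lib.MP_5c318e_ag.Ky
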